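import Mathlib

set_option autoImplicit false

/-! # Lower bounds for elementary symmetric sums -/

open Finset

namespace Pool.Agent.U746.LD

/-- the elementary symmetric sum -/
noncomputable def es (p : ℕ → ℝ) (k : ℕ) (I : Finset ℕ) : ℝ := ∑ A ∈ I.powersetCard k, ∏ i ∈ A, p i

theorem es_zero (p : ℕ → ℝ) (I : Finset ℕ) : es p 0 I = 1 := by
  unfold es
  simp

theorem es_nonneg (p : ℕ → ℝ) (hp : ∀ i, 0 ≤ p i) (k : ℕ) (I : Finset ℕ) : 0 ≤ es p k I :=
  sum_nonneg fun _ _ => prod_nonneg fun i _ => hp i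

theorem es_insert (p : ℕ → ℝ) (k : ℕ) (I : Finset ℕ) (i : ℕ) (hi : i ∉ I) :
    es p (k + 1) (insert i I) = es p (k + 1) I + p i * es p k I := by
  unfold es
  rw [powersetCard_succ_insert hi, sum_union]
  · congr 1
    rw [sum_image, mul_sum]
    · apply sum_congr rfl
      intro A hA
      rw [mem_powersetCard] at hA
      rw [prod_insert (fun h => hi (hA.1 h))]
    · intro A hA B hB h
      rw [mem_coe, mem_powersetCard] at hA hB
      have h1 : i ∉ A := fun h => hi (hA.1 h)
      have h2 : i ∉ B := fun h => hi (hB.1 h)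
      have h3 : (insert i A).erase i = (insert i B).erase i := by rw [h]
      rwa [erase_insert h1, erase_insert h2] at h3
  · rw [disjoint_left]
    intro A hA hA'
    rw [mem_powersetCard] at hA
    rw [mem_image] at hA'
    obtain ⟨B, -, rfl⟩ := hA'
    exact hi (hA.1 (mem_insert_self _ _))

theorem es_mono (p : ℕ → ℝ) (hp : ∀ i, 0 ≤ p i) (k : ℕ) {I J : Finset ℕ} (h : I ⊆ J) : es p k I ≤ es p k J := by
  unfold es
  apply sum_le_sum_of_subset_of_nonneg (powersetCard_mono h)
  intro A _ _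
  exact prod_nonneg fun i _ => hp i

theorem es_count (p : ℕ → ℝ) (k : ℕ) (I : Finset ℕ) :
    ∑ i ∈ I, p i * es p k (I.erase i) = (k + 1) * es p (k + 1) I := by
  induction I using Finset.induction_on generalizing k with
  | empty =>
    have h0 : es p (k + 1) ∅ = 0 := by
      unfold es
      rw [powersetCard_eq_empty.2 (by simp), sum_empty]
    rw [h0]
    simp
  | insert j I hj ih =>
    rw [sum_insert hj, erase_insert hj]
    have h1 : ∀ i ∈ I, p i * es p k ((insert j I).erase i) =
        p i * es p k (insert j (I.erase i)) := by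
      intro i hi
      have hne : j ≠ i := by
        rintro rfl
        exact hj hi
      rw [erase_insert_of_ne hne]
    rw [sum_congr rfl h1]
    cases k with
    | zero =>
      simp only [es_zero]
      rw [es_insert p 0 I j hj, es_zero]
      have := ih 0
      simp only [es_zero] at this
      rw [this]
      push_cast
      ring
    | succ k =>
      have h2 : ∀ i ∈ I, p i * es p (k + 1) (insert j (I.erase i)) =
          p i * es p (k + 1) (I.erase i) + p j * (p i * es p k (I.erase i)) := by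
        intro i hi
        rw [es_insert p k (I.erase i) j (fun h => hj (mem_of_mem_erase h))]
        ring
      rw [sum_congr rfl h2, sum_add_distrib, ← mul_sum, ih (k + 1), ih k, es_insert p (k + 1) I j hj]
      push_cast
      ring

theorem es_step (p : ℕ → ℝ) (hp : ∀ i, 0 ≤ p i) (δ : ℝ) (I : Finset ℕ) (hδ : ∀ i ∈ I, p i ≤ δ) (k : ℕ) :
    (∑ i ∈ I, p i) * es p (k + 1) I - δ * (∑ i ∈ I, p i) * es p k I ≤ (k + 2) * es p (k + 2) I := by
  have h := es_count p (k + 1) I
  push_cast at h
  have h0 : (k : ℝ) + 1 + 1 = k + 2 := by ring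
  rw [h0] at h
  rw [← h]
  have h1 : ∀ i ∈ I, p i * es p (k + 1) I - δ * p i * es p k I ≤ p i * es p (k + 1) (I.erase i) := by
    intro i hi
    have h2 : es p (k + 1) I = es p (k + 1) (I.erase i) + p i * es p k (I.erase i) := by
      conv_lhs => rw [← insert_erase hi]
      exact es_insert p k (I.erase i) i (notMem_erase i I)
    have h3 : es p k (I.erase i) ≤ es p k I := es_mono p hp k (erase_subset i I)
    have h4 : 0 ≤ es p k (I.erase i) := es_nonneg p hp k _
    have h5 : p i * (p i * es p k (I.erase i)) ≤ p i * (δ * es p k I) := by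
      apply mul_le_mul_of_nonneg_left _ (hp i)
      exact mul_le_mul (hδ i hi) h3 h4 ((hp i).trans (hδ i hi))
    rw [h2]
    nlinarith
  calc (∑ i ∈ I, p i) * es p (k + 1) I - δ * (∑ i ∈ I, p i) * es p k I
      = ∑ i ∈ I, (p i * es p (k + 1) I - δ * p i * es p k I) := by
        rw [sum_sub_distrib, sum_mul, mul_sum, sum_mul]
    _ ≤ _ := sum_le_sum h1

/-- the ratio of consecutive sums -/
theorem es_ratio (p : ℕ → ℝ) (hp : ∀ i, 0 ≤ p i) (δ : ℝ) (hδ0 : 0 ≤ δ) (I : Finset ℕ) (hδ : ∀ i ∈ I, p i ≤ δ)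
    (k : ℕ) (hk : 4 * δ * k ≤ ∑ i ∈ I, p i) :
    ((∑ i ∈ I, p i) - 2 * δ * k) * es p k I ≤ (k + 1) * es p (k + 1) I := by
  induction k with
  | zero =>
    have h := es_count p 0 I
    simp only [es_zero] at h ⊢
    push_cast at h ⊢
    rw [← h]
    simp
  | succ k ih =>
    push_cast at hk ⊢
    obtain ⟨S, hS⟩ : ∃ S, S = ∑ i ∈ I, p i := ⟨_, rfl⟩
    rw [← hS] at hk ih ⊢
    have hk0 : (0 : ℝ) ≤ k := Nat.cast_nonneg k
    have h1 := ih (by nlinarith)
    have h2 := es_step p hp δ I hδ k
    rw [← hS] at h2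
    have h3 : 0 ≤ es p k I := es_nonneg p hp k I
    have h4 : 0 ≤ es p (k + 1) I := es_nonneg p hp (k + 1) I
    -- `δ S e_k ≤ 2 δ (k + 1) e_{k + 1}`
    have h5 : S * es p k I ≤ 2 * ((k + 1) * es p (k + 1) I) := by
      have h6 : S / 2 ≤ S - 2 * δ * k := by nlinarith
      have h7 : S / 2 * es p k I ≤ (S - 2 * δ * k) * es p k I := mul_le_mul_of_nonneg_right h6 h3
      linarith
    have h6 : δ * (S * es p k I) ≤ δ * (2 * ((k + 1) * es p (k + 1) I)) := mul_le_mul_of_nonneg_left h5 hδ0
    have h7 : (k : ℝ) + 1 + 1 = k + 2 := by ring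
    rw [h7]
    nlinarith

/-- the lower bound -/
theorem es_low (p : ℕ → ℝ) (hp : ∀ i, 0 ≤ p i) (δ : ℝ) (hδ0 : 0 ≤ δ) (I : Finset ℕ) (hδ : ∀ i ∈ I, p i ≤ δ)
    (K : ℕ) (hK : 4 * δ * K ≤ ∑ i ∈ I, p i) :
    ((∑ i ∈ I, p i) - 2 * δ * K) ^ K / K.factorial ≤ es p K I := by
  obtain ⟨S, hS⟩ : ∃ S, S = ∑ i ∈ I, p i := ⟨_, rfl⟩
  rw [← hS] at hK ⊢
  have hS0 : 0 ≤ S := by rw [hS]; exact sum_nonneg fun i _ => hp i
  have hb : 0 ≤ S - 2 * δ * K := by nlinarith
  have key : ∀ k : ℕ, k ≤ K → (S - 2 * δ * K) ^ k / k.factorial ≤ es p k I := by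
    intro k
    induction k with
    | zero =>
      intro _
      rw [es_zero]
      simp
    | succ k ih =>
      intro hk
      have hkK : (k : ℝ) ≤ K := by exact_mod_cast (by omega : k ≤ K)
      have h1 := ih (by omega)
      have h2 := es_ratio p hp δ hδ0 I hδ k (by
        rw [← hS]
        have : 4 * δ * (k : ℝ) ≤ 4 * δ * K := by gcongr
        linarith)
      rw [← hS] at h2
      have h3 : S - 2 * δ * K ≤ S - 2 * δ * k := by
        have : 2 * δ * (k : ℝ) ≤ 2 * δ * K := by gcongr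
        linarith
      have h4 : 0 ≤ es p k I := es_nonneg p hp k I
      have h5 : (S - 2 * δ * K) * es p k I ≤ (k + 1) * es p (k + 1) I :=
        (mul_le_mul_of_nonneg_right h3 h4).trans h2
      have h6 : (S - 2 * δ * K) * ((S - 2 * δ * K) ^ k / k.factorial) ≤ (k + 1) * es p (k + 1) I :=
        (mul_le_mul_of_nonneg_left h1 hb).trans h5
      rw [Nat.factorial_succ, div_le_iff₀ (by positivity)]
      push_cast
      have hf : (0 : ℝ) < k.factorial := by exact_mod_cast k.factorial_pos
      have h7 : (S - 2 * δ * K) ^ (k + 1) =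
          (S - 2 * δ * K) * ((S - 2 * δ * K) ^ k / k.factorial) * k.factorial := by
        field_simp
        ring
      rw [h7]
      calc (S - 2 * δ * K) * ((S - 2 * δ * K) ^ k / k.factorial) * k.factorial ≤
            ((k + 1) * es p (k + 1) I) * k.factorial := mul_le_mul_of_nonneg_right h6 hf.le
        _ = _ := by ring
  exact key K le_rfl

end Pool.Agent.U746.LD
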