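import Mathlib
import Pool.Agent.U839.Sv.Crit
import Pool.Agent.U746.HL.Chern
import Pool.Agent.U746.LD.Esym

set_option autoImplicit false

/-! # The number of chosen elements of a finite set -/

open Finset Filter Topology MeasureTheory ProbabilityTheory

namespace Pool.Agent.U746.LD

open Pool.Agent.U746.HL (XI XI_indep XI_meas XI_exp XI_mgf chern)
open Pool.Agent.U839.Sv (BB mixed_prod)

/-- the σ-algebra of the events `E i` with `i ∈ S` -/
def sg {Ω : Type*} (E : ℕ → Set Ω) (S : Set ℕ) : MeasurableSpace Ω :=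
  ⨆ i ∈ S, MeasurableSpace.generateFrom {E i}

theorem sg_E {Ω : Type*} (E : ℕ → Set Ω) (S : Set ℕ) (i : ℕ) (hi : i ∈ S) : MeasurableSet[sg E S] (E i) := by
  have h : MeasurableSpace.generateFrom {E i} ≤ sg E S :=
    le_iSup₂_of_le (f := fun i (_ : i ∈ S) => MeasurableSpace.generateFrom {E i}) i hi le_rfl
  exact h _ (MeasurableSpace.measurableSet_generateFrom rfl)

open Classical in
/-- the chosen elements of `I` -/
noncomputable def pat {Ω : Type*} (E : ℕ → Set Ω) (I : Finset ℕ) (ω : Ω) : Finset ℕ :=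
  I.filter (fun m => ω ∈ E m)

theorem pat_sub {Ω : Type*} (E : ℕ → Set Ω) (I : Finset ℕ) (ω : Ω) : pat E I ω ⊆ I := by
  classical
  exact filter_subset _ _

theorem mem_BB {Ω : Type*} (E : ℕ → Set Ω) (I A : Finset ℕ) (hA : A ⊆ I) (ω : Ω) :
    ω ∈ (⋂ k ∈ I, BB E (A : Set ℕ) k) ↔ pat E I ω = A := by
  classical
  unfold pat BB
  rw [Set.mem_iInter₂]
  constructor
  · intro h
    ext k
    rw [mem_filter]
    constructor
    · rintro ⟨h1, h2⟩
      by_contra h3
      have h4 := h k h1
      rw [if_neg (by exact_mod_cast h3)] at h4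
      exact h4 h2
    · intro h1
      refine ⟨hA h1, ?_⟩
      have h4 := h k (hA h1)
      rwa [if_pos (by exact_mod_cast h1)] at h4
  · intro h k hk
    split_ifs with h1
    · have h2 : k ∈ A := by exact_mod_cast h1
      rw [← h, mem_filter] at h2
      exact h2.2
    · intro h2
      apply h1
      have : k ∈ A := by
        rw [← h, mem_filter]
        exact ⟨hk, h2⟩
      exact_mod_cast this

theorem pat_union {Ω : Type*} (E : ℕ → Set Ω) (I : Finset ℕ) (P : Finset ℕ → Prop) [DecidablePred P] :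
    {ω | P (pat E I ω)} = ⋃ A ∈ I.powerset.filter P, ⋂ k ∈ I, BB E (A : Set ℕ) k := by
  ext ω
  rw [Set.mem_iUnion₂]
  constructor
  · intro h
    refine ⟨pat E I ω, mem_filter.2 ⟨mem_powerset.2 (pat_sub E I ω), h⟩, ?_⟩
    exact (mem_BB E I _ (pat_sub E I ω) ω).2 rfl
  · rintro ⟨A, hA, h⟩
    rw [mem_filter, mem_powerset] at hA
    rw [mem_BB E I A hA.1] at h
    show P (pat E I ω)
    rw [h]
    exact hA.2

theorem pat_meas {Ω : Type*} (E : ℕ → Set Ω) (S : Set ℕ) (I : Finset ℕ) (hI : (I : Set ℕ) ⊆ S)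
    (P : Finset ℕ → Prop) : MeasurableSet[sg E S] {ω | P (pat E I ω)} := by
  classical
  rw [pat_union]
  refine @Finset.measurableSet_biUnion Ω _ (sg E S) _ _ (fun A _ => ?_)
  refine @Finset.measurableSet_biInter Ω _ (sg E S) _ _ (fun k hk => ?_)
  unfold BB
  have h1 := sg_E E S k (hI (by exact_mod_cast hk))
  split_ifs
  · exact h1
  · exact h1.compl

variable {Ω : Type*} [MeasurableSpace Ω] {μ : Measure Ω} [IsProbabilityMeasure μ]

theorem sg_le {E : ℕ → Set Ω} (hm : ∀ n, MeasurableSet (E n)) (S : Set ℕ) :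
    sg E S ≤ (inferInstance : MeasurableSpace Ω) := by
  unfold sg
  refine iSup₂_le fun i _ => ?_
  apply MeasurableSpace.generateFrom_le
  intro t ht
  rw [Set.mem_singleton_iff.1 ht]
  exact hm i

theorem pat_meas' {E : ℕ → Set Ω} (hm : ∀ n, MeasurableSet (E n)) (I : Finset ℕ)
    (P : Finset ℕ → Prop) : MeasurableSet {ω | P (pat E I ω)} :=
  sg_le hm _ _ (pat_meas E (I : Set ℕ) I subset_rfl P)

theorem pat_indep {E : ℕ → Set Ω} (hm : ∀ n, MeasurableSet (E n)) (hE : iIndepSet E μ)
    (I : ℕ → Finset ℕ) (hd : Pairwise (Function.onFun Disjoint I)) (P : ℕ → Finset ℕ → Prop) :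
    iIndepSet (fun n => {ω | P n (pat E (I n) ω)}) μ := by
  classical
  rw [iIndepSet_iff_meas_biInter (fun n => pat_meas' hm (I n) (P n))]
  intro s
  induction s using Finset.induction_on with
  | empty => simp
  | insert n s hn ih =>
    rw [Finset.prod_insert hn, Finset.set_biInter_insert, ← ih]
    have h0 : iIndep (fun i => MeasurableSpace.generateFrom {E i}) μ := (iIndepSet_iff_iIndep _ _).1 hE
    have h1 := indep_iSup_of_disjoint (m := fun i => MeasurableSpace.generateFrom {E i}) (fun i => by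
      apply MeasurableSpace.generateFrom_le
      intro t ht
      rw [Set.mem_singleton_iff.1 ht]
      exact hm i) h0 (S := (I n : Set ℕ)) (T := ((s.biUnion I : Finset ℕ) : Set ℕ)) (by
        rw [Finset.disjoint_coe, Finset.disjoint_biUnion_right]
        intro i hi
        apply hd
        rintro rfl
        exact hn hi)
    refine (Indep_iff _ _ μ).1 h1 _ _ (pat_meas E _ _ subset_rfl _) ?_
    refine @Finset.measurableSet_biInter Ω _ (sg E ((s.biUnion I : Finset ℕ) : Set ℕ)) _ _ (fun k hk => ?_)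
    refine pat_meas E _ (I k) ?_ (P k)
    intro j hj
    rw [Finset.mem_coe] at hj ⊢
    exact mem_biUnion.2 ⟨k, hk, hj⟩

/-- second Borel–Cantelli lemma -/
theorem bc2 {E : ℕ → Set Ω} (hm : ∀ n, MeasurableSet (E n)) (hE : iIndepSet E μ)
    (I : ℕ → Finset ℕ) (n₀ : ℕ) (hd : ∀ a b, n₀ ≤ a → a < b → Disjoint (I a) (I b))
    (P : ℕ → Finset ℕ → Prop)
    (hdiv : ¬ Summable (fun n => μ.real {ω | P n (pat E (I n) ω)})) :
    ∀ᵐ ω ∂μ, ∃ᶠ n in atTop, P n (pat E (I n) ω) := by
  obtain ⟨F, hF⟩ : ∃ F : ℕ → Set Ω, F = fun n => {ω | P (n + n₀) (pat E (I (n + n₀)) ω)} := ⟨_, rfl⟩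
  have hFm : ∀ n, MeasurableSet (F n) := by
    intro n
    rw [hF]
    exact pat_meas' hm _ _
  have hFi : iIndepSet F μ := by
    rw [hF]
    apply pat_indep hm hE (fun n => I (n + n₀)) _ (fun n => P (n + n₀))
    intro a b hab
    show Disjoint (I (a + n₀)) (I (b + n₀))
    rcases Nat.lt_or_gt_of_ne hab with h | h
    · exact hd _ _ (by omega) (by omega)
    · exact (hd _ _ (by omega) (by omega)).symm
  have h1 : ∑' n, μ (F n) = ⊤ := by
    by_contra h
    apply hdiv
    have h2 := ENNReal.summable_toReal h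
    rw [← summable_nat_add_iff n₀]
    refine h2.congr (fun n => ?_)
    rw [hF, measureReal_def]
  have h2 := measure_limsup_eq_one hFm hFi h1
  have h3 : ∀ᵐ ω ∂μ, ω ∈ limsup F atTop := by
    rw [ae_iff]
    have h4 : {ω | ω ∉ limsup F atTop} = (limsup F atTop)ᶜ := rfl
    rw [h4, prob_compl_eq_zero_iff]
    · exact h2
    · exact MeasurableSet.measurableSet_limsup hFm
  filter_upwards [h3] with ω hω
  rw [mem_limsup_iff_frequently_mem] at hω
  rw [Filter.frequently_atTop] at hω ⊢
  intro N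
  obtain ⟨b, hb, hmem⟩ := hω N
  refine ⟨b + n₀, by omega, ?_⟩
  rw [hF] at hmem
  exact hmem

/-- first Borel–Cantelli lemma -/
theorem bc1 (F : ℕ → Set Ω) (hs : Summable (fun n => μ.real (F n))) :
    ∀ᵐ ω ∂μ, ∀ᶠ n in atTop, ω ∉ F n := by
  have h2 : ∑' n, μ (F n) ≠ ⊤ := by
    have h1 : ∀ n, μ (F n) = ENNReal.ofReal (μ.real (F n)) := by
      intro n
      rw [measureReal_def, ENNReal.ofReal_toReal (measure_ne_top _ _)]
    simp only [h1]
    rw [← ENNReal.ofReal_tsum_of_nonneg (fun n => measureReal_nonneg) hs]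
    exact ENNReal.ofReal_ne_top
  filter_upwards [ae_eventually_notMem h2] with ω hω
  exact hω

/-- the probability of exactly `K` chosen elements -/
theorem pat_low {E : ℕ → Set Ω} (hm : ∀ n, MeasurableSet (E n)) (hE : iIndepSet E μ) (I : Finset ℕ) (K : ℕ) :
    (∏ k ∈ I, (1 - μ.real (E k))) * es (fun k => μ.real (E k)) K I ≤
      μ.real {ω | (pat E I ω).card = K} := by
  classical
  have h1 : (⋃ A ∈ I.powersetCard K, ⋂ k ∈ I, BB E (A : Set ℕ) k) ⊆ {ω | (pat E I ω).card = K} := by
    intro ω hω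
    rw [Set.mem_iUnion₂] at hω
    obtain ⟨A, hA, h⟩ := hω
    rw [mem_powersetCard] at hA
    rw [mem_BB E I A hA.1] at h
    show (pat E I ω).card = K
    rw [h]
    exact hA.2
  refine le_trans ?_ (measureReal_mono h1)
  rw [measureReal_biUnion_finset]
  · unfold es
    rw [mul_sum]
    apply sum_le_sum
    intro A hA
    rw [mem_powersetCard] at hA
    rw [mixed_prod hE]
    have h2 : ∀ k ∈ I, μ.real (BB E (A : Set ℕ) k) = if k ∈ A then μ.real (E k) else 1 - μ.real (E k) := by
      intro k _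
      unfold BB
      by_cases h : k ∈ A
      · rw [if_pos h, if_pos (by exact_mod_cast h)]
      · rw [if_neg h, if_neg (by exact_mod_cast h), probReal_compl_eq_one_sub (hm k)]
    rw [prod_congr rfl h2, ← prod_sdiff hA.1, ← prod_sdiff hA.1]
    have h3 : ∏ k ∈ A, (if k ∈ A then μ.real (E k) else 1 - μ.real (E k)) = ∏ k ∈ A, μ.real (E k) :=
      prod_congr rfl fun k hk => if_pos hk
    have h4 : ∏ k ∈ I \ A, (if k ∈ A then μ.real (E k) else 1 - μ.real (E k)) =
        ∏ k ∈ I \ A, (1 - μ.real (E k)) :=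
      prod_congr rfl fun k hk => if_neg (mem_sdiff.1 hk).2
    rw [h3, h4]
    apply mul_le_mul_of_nonneg_right _ (prod_nonneg fun _ _ => measureReal_nonneg)
    have h5 : 0 ≤ ∏ k ∈ I \ A, (1 - μ.real (E k)) :=
      prod_nonneg fun k _ => by linarith [measureReal_le_one (μ := μ) (s := E k)]
    have h6 : ∏ k ∈ A, (1 - μ.real (E k)) ≤ 1 := by
      apply prod_le_one
      · intro k _
        linarith [measureReal_le_one (μ := μ) (s := E k)]
      · intro k _
        linarith [measureReal_nonneg (μ := μ) (s := E k)]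
    calc _ ≤ (∏ k ∈ I \ A, (1 - μ.real (E k))) * 1 := mul_le_mul_of_nonneg_left h6 h5
      _ = _ := mul_one _
  · intro A hA B hB hAB
    rw [mem_coe, mem_powersetCard] at hA hB
    show Disjoint _ _
    rw [Set.disjoint_left]
    intro ω h2 h3
    rw [mem_BB E I A hA.1] at h2
    rw [mem_BB E I B hB.1] at h3
    exact hAB (h2.symm.trans h3)
  · intro A _
    refine Finset.measurableSet_biInter _ (fun k _ => ?_)
    unfold BB
    split_ifs
    · exact hm k
    · exact (hm k).compl

theorem pat_card {Ω : Type*} (E : ℕ → Set Ω) (I : Finset ℕ) (ω : Ω) :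
    ((pat E I ω).card : ℝ) = ∑ n ∈ I, XI E n ω := by
  classical
  unfold pat XI
  rw [card_filter]
  push_cast
  apply sum_congr rfl
  intro n _
  by_cases h : ω ∈ E n
  · rw [if_pos h, Set.indicator_of_mem h]
  · rw [if_neg h, Set.indicator_of_notMem h]

/-- Chernoff's bound for the lower tail -/
theorem chern_low {E : ℕ → Set Ω} (hm : ∀ n, MeasurableSet (E n)) (hE : iIndepSet E μ) (I : Finset ℕ)
    (s e₀ m : ℝ) (hs : 0 ≤ s) (hI : e₀ ≤ ∑ n ∈ I, μ.real (E n)) :
    μ.real {ω | ((pat E I ω).card : ℝ) ≤ m} ≤ Real.exp (s * m - e₀ * (1 - Real.exp (-s))) := by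
  have hset : {ω | ((pat E I ω).card : ℝ) ≤ m} = {ω | (∑ n ∈ I, XI E n) ω ≤ m} := by
    ext ω
    simp only [Set.mem_setOf_eq, pat_card, Finset.sum_apply]
  have hint : Integrable (fun ω => Real.exp (-s * (∑ n ∈ I, XI E n) ω)) μ := by
    apply Integrable.of_bound (C := 1)
    · apply Measurable.aestronglyMeasurable
      apply Real.measurable_exp.comp
      apply Measurable.const_mul
      have h0 : Measurable (fun ω => ∑ n ∈ I, XI E n ω) := Finset.measurable_sum I (fun n _ => XI_meas hm n)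
      have h1 : (∑ n ∈ I, XI E n) = fun ω => ∑ n ∈ I, XI E n ω := by
        ext ω
        rw [Finset.sum_apply]
      rw [h1]
      exact h0
    · filter_upwards with ω
      rw [Real.norm_of_nonneg (Real.exp_pos _).le]
      apply Real.exp_le_one_iff.2
      rw [Finset.sum_apply, ← pat_card]
      have : (0 : ℝ) ≤ ((pat E I ω).card : ℝ) := Nat.cast_nonneg _
      nlinarith
  have h1 := measure_le_le_exp_mul_mgf (μ := μ) (X := ∑ n ∈ I, XI E n) (t := -s) m (by linarith) hint
  rw [hset]
  refine h1.trans ?_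
  rw [(XI_indep hE).mgf_sum (XI_meas hm) I]
  have hes : Real.exp (-s) ≤ 1 := Real.exp_le_one_iff.2 (by linarith)
  have h2 : ∏ n ∈ I, mgf (XI E n) μ (-s) ≤ Real.exp (-(e₀ * (1 - Real.exp (-s)))) := by
    calc ∏ n ∈ I, mgf (XI E n) μ (-s) ≤ ∏ n ∈ I, Real.exp ((Real.exp (-s) - 1) * μ.real (E n)) := by
          apply Finset.prod_le_prod
          · intro n _
            exact mgf_nonneg
          · intro n _
            rw [XI_mgf hm]
            have := Real.add_one_le_exp ((Real.exp (-s) - 1) * μ.real (E n))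
            linarith
      _ = Real.exp ((Real.exp (-s) - 1) * ∑ n ∈ I, μ.real (E n)) := by
          rw [← Real.exp_sum, ← Finset.mul_sum]
      _ ≤ Real.exp (-(e₀ * (1 - Real.exp (-s)))) := by
          apply Real.exp_le_exp.2
          have := mul_le_mul_of_nonneg_left hI (show 0 ≤ 1 - Real.exp (-s) by linarith)
          linarith
  calc Real.exp (-(-s) * m) * ∏ n ∈ I, mgf (XI E n) μ (-s) ≤
        Real.exp (-(-s) * m) * Real.exp (-(e₀ * (1 - Real.exp (-s)))) :=
        mul_le_mul_of_nonneg_left h2 (Real.exp_pos _).le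
    _ = _ := by
        rw [← Real.exp_add]
        congr 1
        ring

end Pool.Agent.U746.LD
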