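import Mathlib
import Pool.Agent.H381R2.HR.A1
import Pool.Agent.U746.GM.Sq2
import Pool.Agent.U746.LD.Pat

set_option autoImplicit false

/-! # Large deviations of the number of chosen elements in blocks behind squares -/

open Finset Filter Topology MeasureTheory ProbabilityTheory

namespace Pool.Agent.U746.LD

open Pool.Agent.U839.Sv (fT fT_nonneg regular rho_small dens sub_pow)
open Pool.Agent.U839.Thin (tlog one_sub_ge)
open Pool.Agent.U746.GM (blk blk_sum blk_size harm_div pow_conv q_le_one)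

/-- the rate function -/
noncomputable def rate (x : ℝ) : ℝ := 1 - x + x * Real.log x

/-- the mean of the number of chosen elements -/
theorem mean (q : ℕ → ℝ) (T : ℕ → ℕ) (hT : Monotone T)
    (hTs : ∀ θ : ℝ, 0 < θ → ∀ᶠ n : ℕ in atTop, (T n : ℝ) ≤ (Real.log n) ^ θ)
    (hq : ∀ m : ℕ, q m = min 1 (fT T m / Real.log m)) (C : ℝ) (hC : 0 < C) (ε : ℝ) (hε : 0 < ε) :
    ∀ᶠ n : ℕ in atTop, (C / 2 - ε) * Real.log n ≤ ∑ m ∈ blk C n, q m ∧
      ∑ m ∈ blk C n, q m ≤ (C / 2 + ε) * Real.log n ∧ ∀ m ∈ blk C n, q m ≤ ε := by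
  obtain ⟨η, hη, hη1, hη2⟩ : ∃ η : ℝ, 0 < η ∧ η ≤ 1 ∧ C * η ≤ ε := by
    refine ⟨min 1 (ε / C), lt_min one_pos (by positivity), min_le_left _ _, ?_⟩
    calc C * min 1 (ε / C) ≤ C * (ε / C) := by
          gcongr
          exact min_le_right _ _
      _ = ε := by field_simp
  have hsp := sub_pow T 1 (hTs 1 one_pos)
  obtain ⟨n₁, hn₁⟩ := eventually_atTop.1 (rho_small T hsp ε hε)
  obtain ⟨n₂, hn₂⟩ := eventually_atTop.1 (dens T hsp 1 one_pos)
  filter_upwards [blk_sum T hT hTs η hη C hC, blk_size C hC η hη, tlog.eventually_gt_atTop 1,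
    eventually_ge_atTop (max n₁ n₂)] with n g1 g2 g3 g4
  have hL0 : 0 < Real.log n := by linarith
  have hqr : ∀ m ∈ blk C n, q m = fT T m / Real.log m ∧ 0 ≤ q m ∧ 2 * q m ≤ ε := by
    intro m hm
    obtain ⟨k1, k2, k3⟩ := g2 m hm
    have e1 : q m = fT T m / Real.log m := by
      rw [hq m, min_eq_right (hn₂ m ((le_max_right _ _).trans (g4.trans k1)))]
    have := hn₁ m ((le_max_left _ _).trans (g4.trans k1))
    rw [e1]
    exact ⟨rfl, this.1, this.2⟩
  refine ⟨?_, ?_, fun m hm => by linarith [(hqr m hm).2.1, (hqr m hm).2.2]⟩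
  · have h2 : (∑ m ∈ blk C n, fT T m) / ((1 + η) * (2 * Real.log n)) ≤ ∑ m ∈ blk C n, q m := by
      rw [sum_div]
      apply sum_le_sum
      intro m hm
      obtain ⟨k1, k2, k3⟩ := g2 m hm
      rw [(hqr m hm).1]
      apply div_le_div_of_nonneg_left (fT_nonneg T m) (by linarith) k3
    refine le_trans ?_ h2
    rw [le_div_iff₀ (by positivity)]
    have h3 := (abs_le.1 g1).1
    have h4 : (1 - η) * (C * (Real.log n) ^ 2) ≤ ∑ m ∈ blk C n, fT T m := by linarith
    refine le_trans ?_ h4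
    have h5 : (C / 2 - ε) * (1 + η) * 2 ≤ (1 - η) * C := by nlinarith
    have h6 : (C / 2 - ε) * (1 + η) * 2 * (Real.log n) ^ 2 ≤ (1 - η) * C * (Real.log n) ^ 2 := by gcongr
    nlinarith
  · have h2 : ∑ m ∈ blk C n, q m ≤ (∑ m ∈ blk C n, fT T m) / (2 * Real.log n) := by
      rw [sum_div]
      apply sum_le_sum
      intro m hm
      obtain ⟨k1, k2, k3⟩ := g2 m hm
      rw [(hqr m hm).1]
      apply div_le_div_of_nonneg_left (fT_nonneg T m) (by linarith) k2
    have h3 := (abs_le.1 g1).2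
    refine h2.trans ?_
    rw [div_le_iff₀ (by positivity)]
    have h4 : C * (1 + η) ≤ C + 2 * ε := by nlinarith
    have h5 : C * (1 + η) * (Real.log n) ^ 2 ≤ (C + 2 * ε) * (Real.log n) ^ 2 := by gcongr
    nlinarith

/-- a sequence of events with probabilities `≤ n ^ (-s)`, `s > 1` -/
theorem conv_of {Ω : Type*} [MeasurableSpace Ω] {μ : Measure Ω} (F : ℕ → Set Ω) (s : ℝ) (hs : 1 < s)
    (h : ∀ᶠ n : ℕ in atTop, μ.real (F n) ≤ Real.exp (-(s * Real.log n))) :
    Summable (fun n => μ.real (F n)) :=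
  pow_conv _ s hs (fun _ => measureReal_nonneg) h

theorem div_of {Ω : Type*} [MeasurableSpace Ω] {μ : Measure Ω} (F : ℕ → Set Ω) (s : ℝ) (hs : s ≤ 1)
    (h : ∀ᶠ n : ℕ in atTop, Real.exp (-(s * Real.log n)) ≤ μ.real (F n)) :
    ¬ Summable (fun n => μ.real (F n)) := by
  apply harm_div _ 1 one_pos
  filter_upwards [h, eventually_ge_atTop 1] with n g1 g2
  have hn0 : (0 : ℝ) < n := by exact_mod_cast g2
  refine le_trans ?_ g1
  rw [one_mul]
  calc (n : ℝ)⁻¹ = Real.exp (-Real.log n) := by rw [Real.exp_neg, Real.exp_log hn0]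
    _ ≤ _ := by
      apply Real.exp_le_exp.2
      have := Real.log_natCast_nonneg n
      nlinarith

/-- choice of `ε` in the lower bound -/
theorem low_eps (σ x η : ℝ) (hσ : 0 < σ) (hx : 0 < x) (hη : 0 < η) : ∃ ε : ℝ, 0 < ε ∧ ε ≤ 1 / 2 ∧
    4 * ε * (x * σ + ε) ≤ σ - ε ∧ 0 < σ - ε - 2 * ε * (x * σ + ε) ∧
    (1 + 2 * ε) * (σ + ε) - x * σ * (1 + Real.log ((σ - ε - 2 * ε * (x * σ + ε)) / (x * σ + ε))) ≤
      σ * rate x + η / 2 := by
  have hxσ : 0 < x * σ := by positivity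
  have hc : ContinuousAt (fun ε : ℝ => (1 + 2 * ε) * (σ + ε) -
      x * σ * (1 + Real.log ((σ - ε - 2 * ε * (x * σ + ε)) / (x * σ + ε)))) 0 := by
    apply ContinuousAt.sub
    · fun_prop
    · apply ContinuousAt.mul
      · fun_prop
      · apply ContinuousAt.add
        · fun_prop
        · apply ContinuousAt.log
          · apply ContinuousAt.div
            · fun_prop
            · fun_prop
            · simp only [add_zero]
              exact hxσ.ne'
          · simp only [sub_zero, mul_zero, zero_mul, add_zero]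
            positivity
  have hv : (1 + 2 * (0 : ℝ)) * (σ + 0) -
      x * σ * (1 + Real.log ((σ - 0 - 2 * 0 * (x * σ + 0)) / (x * σ + 0))) < σ * rate x + η / 2 := by
    have h1 : (σ - 0 - 2 * 0 * (x * σ + 0)) / (x * σ + 0) = x⁻¹ := by
      field_simp
      ring
    rw [h1, Real.log_inv]
    unfold rate
    nlinarith
  have hc1 : ContinuousAt (fun ε : ℝ => 4 * ε * (x * σ + ε) - (σ - ε)) 0 := by fun_prop
  have hv1 : 4 * (0 : ℝ) * (x * σ + 0) - (σ - 0) < 0 := by simp [hσ]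
  have hc2 : ContinuousAt (fun ε : ℝ => σ - ε - 2 * ε * (x * σ + ε)) 0 := by fun_prop
  have hv2 : 0 < σ - (0 : ℝ) - 2 * 0 * (x * σ + 0) := by simp [hσ]
  have e1 := (hc.tendsto.mono_left (nhdsWithin_le_nhds (s := Set.Ioi 0))).eventually (gt_mem_nhds hv)
  have e2 := (hc1.tendsto.mono_left (nhdsWithin_le_nhds (s := Set.Ioi 0))).eventually (gt_mem_nhds hv1)
  have e3 := (hc2.tendsto.mono_left (nhdsWithin_le_nhds (s := Set.Ioi 0))).eventually (lt_mem_nhds hv2)
  have e4 : ∀ᶠ ε : ℝ in 𝓝[>] 0, ε ∈ Set.Ioc (0 : ℝ) (1 / 2) := Ioc_mem_nhdsGT (by norm_num)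
  obtain ⟨ε, h1, h2, h3, h4⟩ := (e1.and (e2.and (e3.and e4))).exists
  exact ⟨ε, h4.1, h4.2, by linarith, h3, h1.le⟩

/-- `log K! ≤ K log K - K + 1 + log K` -/
theorem fact_le (K : ℕ) (hK : 1 ≤ K) :
    (K.factorial : ℝ) ≤ Real.exp (K * Real.log K - K + 1 + Real.log K) := by
  have h1 := (abs_le.1 (Pool.Agent.H381R2.HR.A1aux.logfact K hK)).2
  have h2 : Real.log (K.factorial : ℝ) = ∑ i ∈ Ioc 0 K, Real.log (i : ℝ) := by
    clear h1
    induction K, hK using Nat.le_induction with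
    | base => simp
    | succ n hn ih =>
      rw [Nat.factorial_succ, sum_Ioc_succ_top (by omega), ← ih]
      push_cast
      rw [Real.log_mul (by positivity) (by exact_mod_cast n.factorial_pos.ne')]
      ring
  have hf : (0 : ℝ) < K.factorial := by exact_mod_cast K.factorial_pos
  rw [← Real.log_le_iff_le_exp hf, h2]
  linarith

/-- **Lower bound**: the probability of exactly `K` chosen elements for `K` close to `x σ log n` -/
theorem low (q : ℕ → ℝ) (T : ℕ → ℕ) (hT : Monotone T)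
    (hTs : ∀ θ : ℝ, 0 < θ → ∀ᶠ n : ℕ in atTop, (T n : ℝ) ≤ (Real.log n) ^ θ)
    (hq : ∀ m : ℕ, q m = min 1 (fT T m / Real.log m)) (C : ℝ) (hC : 0 < C) (x η : ℝ) (hx : 0 < x)
    (hη : 0 < η) : ∀ᶠ n : ℕ in atTop, ∀ K : ℕ, |(K : ℝ) - x * (C / 2 * Real.log n)| ≤ 1 →
      Real.exp (-((C / 2 * rate x + η) * Real.log n)) ≤
        (∏ m ∈ blk C n, (1 - q m)) * es q K (blk C n) := by
  obtain ⟨σ, hσ⟩ : ∃ σ, σ = C / 2 := ⟨_, rfl⟩
  have hσ0 : 0 < σ := by rw [hσ]; positivity
  obtain ⟨ε, hε, hε1, hε2, hε3, hε4⟩ := low_eps σ x η hσ0 hx hη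
  obtain ⟨u, hu⟩ : ∃ u, u = x * σ + ε := ⟨_, rfl⟩
  obtain ⟨b, hb⟩ : ∃ b, b = σ - ε - 2 * ε * (x * σ + ε) := ⟨_, rfl⟩
  rw [← hb] at hε3 hε4
  rw [← hu] at hε2 hε4 hb
  have hu0 : 0 < u := by rw [hu]; positivity
  obtain ⟨c, hc⟩ : ∃ c, c = 1 + Real.log (b / u) := ⟨_, rfl⟩
  rw [← hc] at hε4
  -- the error term
  have herr : ∀ᶠ n : ℕ in atTop, |c| + 1 + Real.log (u * Real.log n) ≤ η / 2 * Real.log n := by
    have h1 : ∀ᶠ y : ℝ in atTop, Real.log y ≤ η / 8 * y := by
      have := isLittleO_log_rpow_atTop (r := 1) (by norm_num)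
      have h2 := this.bound (show (0 : ℝ) < η / 8 by positivity)
      filter_upwards [h2, eventually_ge_atTop 1] with y g1 g2
      rw [Real.norm_of_nonneg (Real.log_nonneg g2), Real.rpow_one, Real.norm_of_nonneg (by linarith)] at g1
      exact g1
    filter_upwards [tlog.eventually h1, tlog.eventually_ge_atTop 1,
      tlog.eventually_ge_atTop ((|c| + 1 + |Real.log u|) / (η / 4))] with n g1 g2 g3
    rw [div_le_iff₀ (by positivity)] at g3
    rw [Real.log_mul hu0.ne' (by linarith)]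
    have := le_abs_self (Real.log u)
    nlinarith
  filter_upwards [mean q T hT hTs hq C hC ε hε, herr, tlog.eventually_ge_atTop 1,
    tlog.eventually_ge_atTop (1 / ε), tlog.eventually_ge_atTop (2 / (x * σ))] with n g1 g2 g3 g4 g5
  intro K hK
  obtain ⟨m1, m2, m3⟩ := g1
  rw [← hσ] at m1 m2 hK ⊢
  obtain ⟨L, hL⟩ : ∃ L, L = Real.log (n : ℝ) := ⟨_, rfl⟩
  rw [← hL] at m1 m2 hK g2 g3 g4 g5 ⊢
  obtain ⟨e, he⟩ : ∃ e, e = ∑ m ∈ blk C n, q m := ⟨_, rfl⟩
  rw [← he] at m1 m2
  have hL0 : 0 < L := by linarith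
  rw [div_le_iff₀ hε] at g4
  rw [div_le_iff₀ (by positivity)] at g5
  obtain ⟨hK1, hK2⟩ := abs_le.1 hK
  have hKu : (K : ℝ) ≤ u * L := by
    rw [hu]
    nlinarith
  have hK1' : (1 : ℝ) ≤ K := by nlinarith
  have hKn : 1 ≤ K := by exact_mod_cast hK1'
  have hq0 : ∀ m, 0 ≤ q m := fun m => (q_le_one q T hq m).1
  -- the elementary symmetric sum
  have hKe : 4 * ε * (K : ℝ) ≤ e := by
    have h1 : 4 * ε * (K : ℝ) ≤ 4 * ε * (u * L) := by gcongr
    have h2 : 4 * ε * u * L ≤ (σ - ε) * L := by gcongr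
    linarith
  have hes := es_low q hq0 ε hε.le (blk C n) m3 K (by rw [← he]; exact hKe)
  rw [← he] at hes
  have hbL : b * L ≤ e - 2 * ε * K := by
    have h1 : 2 * ε * (K : ℝ) ≤ 2 * ε * (u * L) := by gcongr
    rw [hb]
    nlinarith
  have hbL0 : 0 < b * L := by positivity
  have hf0 : (0 : ℝ) < K.factorial := by exact_mod_cast K.factorial_pos
  have hes2 : Real.exp (K * Real.log (b * L) - (K * Real.log K - K + 1 + Real.log K)) ≤ es q K (blk C n) := by
    refine le_trans ?_ hes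
    rw [Real.exp_sub, le_div_iff₀ hf0]
    have h1 : Real.exp (K * Real.log (b * L)) = (b * L) ^ K := by
      rw [Real.exp_nat_mul, Real.exp_log hbL0]
    have h2 := fact_le K hKn
    have h3 : (0 : ℝ) < Real.exp (K * Real.log K - K + 1 + Real.log K) := Real.exp_pos _
    have h4 : (K.factorial : ℝ) / Real.exp (K * Real.log K - K + 1 + Real.log K) ≤ 1 := by
      rw [div_le_one h3]
      exact h2
    calc Real.exp (K * Real.log (b * L)) / Real.exp (K * Real.log K - K + 1 + Real.log K) * K.factorial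
        = (b * L) ^ K * (K.factorial / Real.exp (K * Real.log K - K + 1 + Real.log K)) := by
          rw [h1]; ring
      _ ≤ (b * L) ^ K * 1 := by gcongr
      _ ≤ (e - 2 * ε * K) ^ K := by
          rw [mul_one]
          exact pow_le_pow_left₀ hbL0.le hbL K
  -- the product
  have hprod : Real.exp (-((1 + 2 * ε) * ((σ + ε) * L))) ≤ ∏ m ∈ blk C n, (1 - q m) := by
    have h1 : Real.exp (-((1 + 2 * ε) * e)) ≤ ∏ m ∈ blk C n, (1 - q m) := by
      rw [he, mul_sum, ← sum_neg_distrib, Real.exp_sum]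
      apply Finset.prod_le_prod
      · intro m _
        positivity
      · intro m hm
        refine le_trans (Real.exp_le_exp.2 ?_) (one_sub_ge (q m) (hq0 m) ((m3 m hm).trans hε1))
        nlinarith [hq0 m, m3 m hm]
    refine le_trans (Real.exp_le_exp.2 ?_) h1
    apply neg_le_neg
    gcongr
  have hall : Real.exp (-((1 + 2 * ε) * ((σ + ε) * L))) *
      Real.exp (K * Real.log (b * L) - (K * Real.log K - K + 1 + Real.log K)) ≤
      (∏ m ∈ blk C n, (1 - q m)) * es q K (blk C n) :=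
    mul_le_mul hprod hes2 (Real.exp_pos _).le (le_trans (Real.exp_pos _).le hprod)
  refine le_trans ?_ hall
  rw [← Real.exp_add]
  apply Real.exp_le_exp.2
  -- the exponent
  have hlogK : Real.log K ≤ Real.log (u * L) := Real.log_le_log (by linarith) hKu
  have hKlog : (K : ℝ) * Real.log (b / u) ≤ K * Real.log (b * L) - K * Real.log K := by
    have h1 : Real.log (b * L) - Real.log (u * L) = Real.log (b / u) := by
      rw [Real.log_mul hε3.ne' hL0.ne', Real.log_mul hu0.ne' hL0.ne', Real.log_div hε3.ne' hu0.ne']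
      ring
    have h2 : (K : ℝ) * Real.log K ≤ K * Real.log (u * L) := by gcongr
    nlinarith
  have hKc : x * (σ * L) * c - |c| ≤ K * c := by
    have h1 : -(|c|) ≤ (K - x * (σ * L)) * c := by
      have h2 : |((K : ℝ) - x * (σ * L)) * c| ≤ 1 * |c| := by
        rw [abs_mul]
        exact mul_le_mul_of_nonneg_right hK (abs_nonneg c)
      linarith [neg_abs_le (((K : ℝ) - x * (σ * L)) * c)]
    nlinarith
  have hfin : ((1 + 2 * ε) * (σ + ε) - x * σ * c) * L ≤ (σ * rate x + η / 2) * L := by gcongr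
  have hc' : (K : ℝ) * c = K + K * Real.log (b / u) := by rw [hc]; ring
  nlinarith

end Pool.Agent.U746.LD
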