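import Mathlib
import Pool.Agent.U746.LD.Ana

set_option autoImplicit false

/-! # The number of events of small probability that occur up to `N` -/

open Finset Filter Topology MeasureTheory ProbabilityTheory

namespace Pool.Agent.U746.LD

open Pool.Agent.U839.Thin (tlog)

variable {Ω : Type*} [MeasurableSpace Ω] {μ : Measure Ω} [IsProbabilityMeasure μ]

/-- the number of the events `F n`, `n ≤ N`, that occur -/
noncomputable def num (F : ℕ → Set Ω) (ω : Ω) (N : ℕ) : ℕ := Set.ncard {n | n ≤ N ∧ ω ∈ F n}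

omit [MeasurableSpace Ω] in
theorem num_eq (F : ℕ → Set Ω) (ω : Ω) (N : ℕ) : num F ω N = (pat F (Icc 0 N) ω).card := by
  classical
  unfold num pat
  rw [← Set.ncard_coe_finset]
  congr 1
  ext n
  simp

theorem num_up (F : ℕ → Set Ω) (hFm : ∀ n, MeasurableSet (F n)) (r : ℝ) (ε : ℝ) (hε : 0 < ε) (hr : r < 1)
    (hup : ∀ᶠ n : ℕ in atTop, μ.real (F n) ≤ Real.exp (-((r - ε / 4) * Real.log n))) :
    ∀ᵐ ω ∂μ, ∀ᶠ N : ℕ in atTop, (num F ω N : ℝ) ≤ (N : ℝ) ^ (1 - r + ε) := by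
  classical
  obtain ⟨β, hβ⟩ : ∃ β, β = 1 - r + ε / 2 := ⟨_, rfl⟩
  have hβ0 : 0 < β := by rw [hβ]; linarith
  obtain ⟨w, hw⟩ : ∃ w : ℕ → ℝ, w = fun n : ℕ => ((n : ℝ) ^ β)⁻¹ := ⟨_, rfl⟩
  have hw0 : ∀ n, 0 ≤ w n := by
    intro n
    rw [hw]
    positivity
  have hsum : Summable (fun n => w n * μ.real (F n)) := by
    have h1 : Summable (fun n : ℕ => ((n : ℝ) ^ (1 + ε / 4))⁻¹) := Real.summable_nat_rpow_inv.2 (by linarith)
    refine Summable.of_norm_bounded_eventually_nat h1 ?_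
    filter_upwards [hup, eventually_gt_atTop 0] with n g1 g2
    have hn0 : (0 : ℝ) < n := by exact_mod_cast g2
    rw [Real.norm_of_nonneg (mul_nonneg (hw0 n) measureReal_nonneg), hw]
    calc ((n : ℝ) ^ β)⁻¹ * μ.real (F n) ≤ ((n : ℝ) ^ β)⁻¹ * Real.exp (-((r - ε / 4) * Real.log n)) := by
          gcongr
      _ = ((n : ℝ) ^ (1 + ε / 4))⁻¹ := by
          rw [Real.rpow_def_of_pos hn0, Real.rpow_def_of_pos hn0, ← Real.exp_neg, ← Real.exp_neg, ← Real.exp_add]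
          congr 1
          rw [hβ]
          ring
  have hint : ∫⁻ ω, ∑' n, (F n).indicator (fun _ => ENNReal.ofReal (w n)) ω ∂μ ≠ ⊤ := by
    rw [lintegral_tsum (fun n => (measurable_const.indicator (hFm n)).aemeasurable)]
    have h1 : ∀ n, ∫⁻ ω, (F n).indicator (fun _ => ENNReal.ofReal (w n)) ω ∂μ =
        ENNReal.ofReal (w n * μ.real (F n)) := by
      intro n
      rw [lintegral_indicator_const (hFm n), ENNReal.ofReal_mul (hw0 n), measureReal_def,
        ENNReal.ofReal_toReal (measure_ne_top _ _)]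
    simp only [h1]
    rw [← ENNReal.ofReal_tsum_of_nonneg (fun n => mul_nonneg (hw0 n) measureReal_nonneg) hsum]
    exact ENNReal.ofReal_ne_top
  have hfin := ae_lt_top (Measurable.ennreal_tsum (fun n => measurable_const.indicator (hFm n))) hint
  filter_upwards [hfin] with ω hω
  obtain ⟨S, hS⟩ : ∃ S, S = (∑' n, (F n).indicator (fun _ => ENNReal.ofReal (w n)) ω).toReal := ⟨_, rfl⟩
  have hlim : Tendsto (fun N : ℕ => (N : ℝ) ^ (ε / 2)) atTop atTop :=
    (tendsto_rpow_atTop (by linarith)).comp tendsto_natCast_atTop_atTop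
  filter_upwards [hlim.eventually_ge_atTop (S + 1), hlim.eventually_ge_atTop 1,
    (tendsto_rpow_atTop hβ0).comp tendsto_natCast_atTop_atTop |>.eventually_ge_atTop 1,
    eventually_gt_atTop 0] with N g1 g2 g3 g4
  simp only [Function.comp] at g3
  have hN0 : (0 : ℝ) < N := by exact_mod_cast g4
  have hNβ : 0 < (N : ℝ) ^ β := by positivity
  rw [num_eq]
  -- the sum over the events up to `N`, without `0`
  have h1 : (((pat F (Ioc 0 N) ω).card : ℝ)) * ((N : ℝ) ^ β)⁻¹ ≤ S := by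
    have h2 : ∑ n ∈ pat F (Ioc 0 N) ω, ENNReal.ofReal (w n) ≤
        ∑' n, (F n).indicator (fun _ => ENNReal.ofReal (w n)) ω := by
      refine le_trans (le_of_eq ?_) (ENNReal.sum_le_tsum (pat F (Ioc 0 N) ω))
      apply sum_congr rfl
      intro n hn
      unfold pat at hn
      rw [mem_filter] at hn
      rw [Set.indicator_of_mem hn.2]
    have h3 := ENNReal.toReal_mono hω.ne h2
    rw [← hS, ENNReal.toReal_sum (fun n _ => ENNReal.ofReal_ne_top)] at h3
    refine le_trans ?_ h3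
    rw [← nsmul_eq_mul, ← sum_const]
    apply sum_le_sum
    intro n hn
    have hn' := mem_Ioc.1 (pat_sub F _ ω hn)
    rw [ENNReal.toReal_ofReal (hw0 n), hw]
    have hn0 : (0 : ℝ) < n := by exact_mod_cast hn'.1
    have hnN : (n : ℝ) ≤ N := by exact_mod_cast hn'.2
    show ((N : ℝ) ^ β)⁻¹ ≤ ((n : ℝ) ^ β)⁻¹
    gcongr
  rw [← div_eq_mul_inv, div_le_iff₀ hNβ] at h1
  have h2 : ((pat F (Icc 0 N) ω).card : ℝ) ≤ (pat F (Ioc 0 N) ω).card + 1 := by
    have : (pat F (Icc 0 N) ω).card ≤ (pat F (Ioc 0 N) ω).card + 1 := by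
      calc (pat F (Icc 0 N) ω).card ≤ (insert 0 (pat F (Ioc 0 N) ω)).card := by
            apply card_le_card
            intro n hn
            unfold pat at hn ⊢
            rw [mem_filter, mem_Icc] at hn
            rw [mem_insert, mem_filter, mem_Ioc]
            rcases Nat.eq_zero_or_pos n with h | h
            · exact Or.inl h
            · exact Or.inr ⟨⟨h, hn.1.2⟩, hn.2⟩
        _ ≤ _ := card_insert_le _ _
    exact_mod_cast this
  calc ((pat F (Icc 0 N) ω).card : ℝ) ≤ S * (N : ℝ) ^ β + 1 := by linarith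
    _ ≤ (S + 1) * (N : ℝ) ^ β := by nlinarith
    _ ≤ (N : ℝ) ^ (ε / 2) * (N : ℝ) ^ β := by gcongr
    _ = (N : ℝ) ^ (1 - r + ε) := by
        rw [← Real.rpow_add hN0, hβ]
        congr 1
        ring

theorem num_low (F : ℕ → Set Ω) (hFm : ∀ n, MeasurableSet (F n)) (n₀ : ℕ)
    (hind : iIndepSet (fun n => F (n + n₀)) μ) (r : ℝ) (ε : ℝ) (hε : 0 < ε) (hrε : r + ε ≤ 1)
    (hr0 : 0 ≤ r)
    (hlo : ∀ᶠ n : ℕ in atTop, Real.exp (-((r + ε / 2) * Real.log n)) ≤ μ.real (F n)) :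
    ∀ᵐ ω ∂μ, ∀ᶠ N : ℕ in atTop, (N : ℝ) ^ (1 - r - ε) ≤ (num F ω N : ℝ) := by
  classical
  obtain ⟨δ, hδ⟩ : ∃ δ, δ = 1 - r - ε / 2 := ⟨_, rfl⟩
  have hδ0 : 0 < δ := by rw [hδ]; linarith
  obtain ⟨n₁, hn₁⟩ := eventually_atTop.1 hlo
  obtain ⟨I, hI⟩ : ∃ I : ℕ → Finset ℕ, I = fun N => Ioc (N / 4) (N / 2) := ⟨_, rfl⟩
  -- the mean
  have hmean : ∀ᶠ N : ℕ in atTop, (N : ℝ) ^ δ / 8 ≤ ∑ n ∈ I N, μ.real (F (n + n₀)) := by
    filter_upwards [eventually_ge_atTop (max (4 * n₁ + 8) (2 * n₀ + 16))] with N hN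
    have hNa : 4 * n₁ + 8 ≤ N := (le_max_left _ _).trans hN
    have hNb : 2 * n₀ + 16 ≤ N := (le_max_right _ _).trans hN
    have hN0 : (0 : ℝ) < N := by exact_mod_cast (by omega : 0 < N)
    have hterm : ∀ n ∈ I N, (N : ℝ) ^ (-(r + ε / 2)) ≤ μ.real (F (n + n₀)) := by
      intro n hn
      rw [hI] at hn
      simp only [mem_Ioc] at hn
      refine le_trans ?_ (hn₁ (n + n₀) (by omega))
      have h1 : ((n + n₀ : ℕ) : ℝ) ≤ N := by exact_mod_cast (by omega : n + n₀ ≤ N)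
      have h2 : (0 : ℝ) < ((n + n₀ : ℕ) : ℝ) := by exact_mod_cast (by omega : 0 < n + n₀)
      rw [Real.rpow_def_of_pos hN0]
      apply Real.exp_le_exp.2
      have h3 := Real.log_le_log h2 h1
      nlinarith
    calc (N : ℝ) ^ δ / 8 ≤ ((I N).card : ℝ) * (N : ℝ) ^ (-(r + ε / 2)) := by
          have h4 : (N : ℝ) / 8 ≤ ((I N).card : ℝ) := by
            rw [hI]
            simp only [Nat.card_Ioc]
            have h5 : N ≤ 8 * (N / 2 - N / 4) := by omega
            have h6 : (N : ℝ) ≤ 8 * ((N / 2 - N / 4 : ℕ) : ℝ) := by exact_mod_cast h5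
            linarith
          have h7 : (N : ℝ) ^ δ = N * (N : ℝ) ^ (-(r + ε / 2)) := by
            have : (N : ℝ) * (N : ℝ) ^ (-(r + ε / 2)) = (N : ℝ) ^ (1 : ℝ) * (N : ℝ) ^ (-(r + ε / 2)) := by
              rw [Real.rpow_one]
            rw [this, ← Real.rpow_add hN0, hδ]
            congr 1
            ring
          rw [h7]
          have h8 : (0 : ℝ) ≤ (N : ℝ) ^ (-(r + ε / 2)) := by positivity
          nlinarith
      _ = ∑ n ∈ I N, (N : ℝ) ^ (-(r + ε / 2)) := by rw [sum_const, nsmul_eq_mul]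
      _ ≤ _ := sum_le_sum hterm
  -- Chernoff
  obtain ⟨G, hG⟩ : ∃ G : ℕ → Set Ω, G = fun n => F (n + n₀) := ⟨_, rfl⟩
  have hGm : ∀ n, MeasurableSet (G n) := fun n => by rw [hG]; exact hFm _
  rw [← hG] at hind
  have hlog2 := Real.log_two_lt_d9
  have hlog2' := Real.log_two_gt_d9
  have hsumm : Summable (fun N : ℕ => μ.real {ω | ((pat G (I N) ω).card : ℝ) ≤ (N : ℝ) ^ δ / 16}) := by
    apply conv_of _ 2 (by norm_num)
    have h1 : ∀ᶠ y : ℝ in atTop, Real.log y ≤ 1 / 256 * y ^ δ := by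
      have h2 := (isLittleO_log_rpow_atTop hδ0).bound (show (0 : ℝ) < 1 / 256 by norm_num)
      filter_upwards [h2, eventually_ge_atTop 1] with y g1 g2
      rwa [Real.norm_of_nonneg (Real.log_nonneg g2), Real.norm_of_nonneg (by positivity)] at g1
    filter_upwards [hmean, tendsto_natCast_atTop_atTop.eventually h1] with N g1 g2
    have h2 : (N : ℝ) ^ δ / 8 ≤ ∑ n ∈ I N, μ.real (G n) := by rw [hG]; exact g1
    refine (chern_low hGm hind (I N) (Real.log 2) ((N : ℝ) ^ δ / 8) ((N : ℝ) ^ δ / 16) (by linarith) h2).trans ?_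
    apply Real.exp_le_exp.2
    have h3 : Real.exp (-Real.log 2) = 1 / 2 := by
      rw [Real.exp_neg, Real.exp_log (by norm_num)]
      norm_num
    rw [h3]
    have h4 : (0 : ℝ) ≤ (N : ℝ) ^ δ := by positivity
    nlinarith
  have hlim : Tendsto (fun N : ℕ => (N : ℝ) ^ (ε / 2)) atTop atTop :=
    (tendsto_rpow_atTop (by linarith)).comp tendsto_natCast_atTop_atTop
  filter_upwards [bc1 _ hsumm] with ω hω
  filter_upwards [hω, hlim.eventually_ge_atTop 16, eventually_ge_atTop (2 * n₀ + 1)] with N g1 g2 g3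
  have hN0 : (0 : ℝ) < N := by exact_mod_cast (by omega : 0 < N)
  simp only [Set.mem_setOf_eq, not_le] at g1
  have hcard : ((pat G (I N) ω).card : ℝ) ≤ num F ω N := by
    rw [num_eq]
    have : (pat G (I N) ω).card ≤ (pat F (Icc 0 N) ω).card := by
      apply card_le_card_of_injOn (fun n => n + n₀)
      · intro n hn
        rw [mem_coe] at hn ⊢
        unfold pat at hn ⊢
        rw [hG, hI] at hn
        simp only [mem_filter, mem_Ioc] at hn
        rw [mem_filter, mem_Icc]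
        exact ⟨⟨Nat.zero_le _, by show n + n₀ ≤ N; omega⟩, hn.2⟩
      · intro a _ b _ hab
        simp only at hab
        omega
    exact_mod_cast this
  refine le_trans ?_ hcard
  refine le_trans ?_ g1.le
  have h5 : (N : ℝ) ^ δ = (N : ℝ) ^ (1 - r - ε) * (N : ℝ) ^ (ε / 2) := by
    rw [← Real.rpow_add hN0, hδ]
    congr 1
    ring
  rw [h5]
  have h6 : (0 : ℝ) ≤ (N : ℝ) ^ (1 - r - ε) := by positivity
  nlinarith

/-- the number of occurring events is `N ^ (1 - r + o(1))` -/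
theorem spec (F : ℕ → Set Ω) (hFm : ∀ n, MeasurableSet (F n)) (n₀ : ℕ)
    (hind : iIndepSet (fun n => F (n + n₀)) μ) (r : ℝ) (hr0 : 0 ≤ r) (hr : r < 1)
    (hup : ∀ η : ℝ, 0 < η → ∀ᶠ n : ℕ in atTop, μ.real (F n) ≤ Real.exp (-((r - η) * Real.log n)))
    (hlo : ∀ η : ℝ, 0 < η → ∀ᶠ n : ℕ in atTop, Real.exp (-((r + η) * Real.log n)) ≤ μ.real (F n)) :
    ∀ᵐ ω ∂μ, ∀ ε : ℝ, 0 < ε → ∀ᶠ N : ℕ in atTop,
      (N : ℝ) ^ (1 - r - ε) ≤ (num F ω N : ℝ) ∧ (num F ω N : ℝ) ≤ (N : ℝ) ^ (1 - r + ε) := by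
  have h1 : ∀ k : ℕ, ∀ᵐ ω ∂μ, (∀ᶠ N : ℕ in atTop,
      (N : ℝ) ^ (1 - r - min (1 - r) (1 / (k + 1 : ℝ))) ≤ (num F ω N : ℝ)) ∧
      ∀ᶠ N : ℕ in atTop, (num F ω N : ℝ) ≤ (N : ℝ) ^ (1 - r + 1 / (k + 1 : ℝ)) := by
    intro k
    have hk : (0 : ℝ) < 1 / (k + 1 : ℝ) := by positivity
    have hk2 : 0 < min (1 - r) (1 / (k + 1 : ℝ)) := lt_min (by linarith) hk
    filter_upwards [num_low F hFm n₀ hind r (min (1 - r) (1 / (k + 1 : ℝ))) hk2
      (by linarith [min_le_left (1 - r) (1 / (k + 1 : ℝ))]) hr0 (hlo _ (by positivity)),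
      num_up F hFm r (1 / (k + 1 : ℝ)) hk hr (hup _ (by positivity))] with ω g1 g2
    exact ⟨g1, g2⟩
  filter_upwards [ae_all_iff.2 h1] with ω hω
  intro ε hε
  obtain ⟨k, hk⟩ := exists_nat_one_div_lt hε
  filter_upwards [(hω k).1, (hω k).2, eventually_ge_atTop 1] with N g1 g2 g3
  have hN1 : (1 : ℝ) ≤ N := by exact_mod_cast g3
  constructor
  · refine le_trans ?_ g1
    apply Real.rpow_le_rpow_of_exponent_le hN1
    linarith [min_le_right (1 - r) (1 / (k + 1 : ℝ))]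
  · refine g2.trans ?_
    apply Real.rpow_le_rpow_of_exponent_le hN1
    linarith

end Pool.Agent.U746.LD
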