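import Mathlib
import Pool.Agent.U746.LD.Spec

set_option autoImplicit false

/-! # Large deviations in blocks behind squares: the tails -/

open Finset Filter Topology MeasureTheory ProbabilityTheory

namespace Pool.Agent.U746.LD

open Pool.Agent.U839.Sv (fT fT_nonneg)
open Pool.Agent.U839.Thin (tlog one_sub_ge)
open Pool.Agent.U746.GM (blk blk_disj q_le_one)
open Pool.Agent.U746.HL (chern)

variable {Ω : Type*} [MeasurableSpace Ω] {μ : Measure Ω} [IsProbabilityMeasure μ]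

theorem rate_zero : rate 0 = 1 := by
  unfold rate
  simp

theorem rate_nonneg (x : ℝ) (hx : 0 ≤ x) : 0 ≤ rate x := by
  rcases hx.eq_or_lt with h | h
  · rw [← h, rate_zero]
    norm_num
  · unfold rate
    have h1 := Real.one_sub_inv_le_log_of_pos h
    have h2 : x * (1 - x⁻¹) ≤ x * Real.log x := mul_le_mul_of_nonneg_left h1 hx
    have h3 : x * (1 - x⁻¹) = x - 1 := by field_simp
    linarith

/-- the assumptions on the model -/
structure Hyp (μ : Measure Ω) (E : ℕ → Set Ω) (T : ℕ → ℕ) (C : ℝ) : Prop where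
  meas : ∀ n, MeasurableSet (E n)
  indep : iIndepSet E μ
  mono : Monotone T
  small : ∀ θ : ℝ, 0 < θ → ∀ᶠ n : ℕ in atTop, (T n : ℝ) ≤ (Real.log n) ^ θ
  law : ∀ m : ℕ, μ.real (E m) = min 1 (fT T m / Real.log m)
  pos : 0 < C

/-- at most `x σ log n` elements -/
def FL (E : ℕ → Set Ω) (C x : ℝ) (n : ℕ) : Set Ω :=
  {ω | ((pat E (blk C n) ω).card : ℝ) ≤ x * (C / 2 * Real.log n)}

/-- at least `x σ log n` elements -/
def FG (E : ℕ → Set Ω) (C x : ℝ) (n : ℕ) : Set Ω :=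
  {ω | x * (C / 2 * Real.log n) ≤ ((pat E (blk C n) ω).card : ℝ)}

theorem lt_up {E : ℕ → Set Ω} {T : ℕ → ℕ} {C : ℝ} (H : Hyp μ E T C) (x : ℝ) (hx0 : 0 ≤ x) (hx1 : x < 1)
    (η : ℝ) (hη : 0 < η) : ∀ᶠ n : ℕ in atTop,
      μ.real (FL E C x n) ≤ Real.exp (-((C / 2 * rate x - η) * Real.log n)) := by
  have hC := H.pos
  obtain ⟨σ, hσ⟩ : ∃ σ, σ = C / 2 := ⟨_, rfl⟩
  have hσ0 : 0 < σ := by rw [hσ]; positivity
  rcases hx0.eq_or_lt with h | h
  · subst h
    obtain ⟨δ, hδ, hδ1, hδ2⟩ : ∃ δ : ℝ, 0 < δ ∧ δ ≤ 1 ∧ σ * δ ≤ η / 2 := by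
      refine ⟨min 1 (η / (2 * σ)), lt_min one_pos (by positivity), min_le_left _ _, ?_⟩
      calc σ * min 1 (η / (2 * σ)) ≤ σ * (η / (2 * σ)) := by
            gcongr
            exact min_le_right _ _
        _ = η / 2 := by field_simp
    filter_upwards [mean (fun m => μ.real (E m)) T H.mono H.small H.law C hC (η / 2) (by positivity),
      tlog.eventually_ge_atTop 1] with n g1 g2
    have hL0 : 0 < Real.log n := by linarith
    refine (chern_low H.meas H.indep (blk C n) (-Real.log δ) _ _ (by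
      have := Real.log_nonpos hδ.le hδ1
      linarith) g1.1).trans ?_
    apply Real.exp_le_exp.2
    rw [neg_neg, Real.exp_log hδ, rate_zero, ← hσ]
    have h2 : (σ - η) * Real.log n ≤ (σ - η / 2) * (1 - δ) * Real.log n := by
      apply mul_le_mul_of_nonneg_right _ hL0.le
      nlinarith
    nlinarith
  · filter_upwards [mean (fun m => μ.real (E m)) T H.mono H.small H.law C hC η hη,
      tlog.eventually_ge_atTop 1] with n g1 g2
    have hL0 : 0 < Real.log n := by linarith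
    refine (chern_low H.meas H.indep (blk C n) (-Real.log x) _ _ (by
      have := Real.log_nonpos h.le hx1.le
      linarith) g1.1).trans ?_
    apply Real.exp_le_exp.2
    rw [neg_neg, Real.exp_log h, ← hσ]
    unfold rate
    have h2 : 0 ≤ η * x * Real.log n := by positivity
    nlinarith

theorem gt_up {E : ℕ → Set Ω} {T : ℕ → ℕ} {C : ℝ} (H : Hyp μ E T C) (x : ℝ) (hx1 : 1 < x)
    (η : ℝ) (hη : 0 < η) : ∀ᶠ n : ℕ in atTop,
      μ.real (FG E C x n) ≤ Real.exp (-((C / 2 * rate x - η) * Real.log n)) := by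
  have hC := H.pos
  obtain ⟨σ, hσ⟩ : ∃ σ, σ = C / 2 := ⟨_, rfl⟩
  have hσ0 : 0 < σ := by rw [hσ]; positivity
  have hx0 : 0 < x := by linarith
  filter_upwards [mean (fun m => μ.real (E m)) T H.mono H.small H.law C hC (η / x) (by positivity),
    tlog.eventually_ge_atTop 1] with n g1 g2
  have hL0 : 0 < Real.log n := by linarith
  refine (chern H.meas H.indep (blk C n) (Real.log x) _ _ (Real.log_nonneg hx1.le) g1.2.1
    (fun ω => (pat E (blk C n) ω).card) (fun ω => pat_card E _ ω)).trans ?_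
  apply Real.exp_le_exp.2
  rw [Real.exp_log hx0, ← hσ]
  unfold rate
  have h2 : η / x * (x - 1) ≤ η := by
    rw [div_mul_eq_mul_div, div_le_iff₀ hx0]
    nlinarith
  have h3 : η / x * (x - 1) * Real.log n ≤ η * Real.log n := by gcongr
  nlinarith

theorem none_prob {E : ℕ → Set Ω} {T : ℕ → ℕ} {C : ℝ} (H : Hyp μ E T C) (η : ℝ) (hη : 0 < η) :
    ∀ᶠ n : ℕ in atTop, Real.exp (-((C / 2 + η) * Real.log n)) ≤
      (∏ m ∈ blk C n, (1 - μ.real (E m))) := by
  have hC := H.pos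
  obtain ⟨σ, hσ⟩ : ∃ σ, σ = C / 2 := ⟨_, rfl⟩
  have hσ0 : 0 < σ := by rw [hσ]; positivity
  obtain ⟨ε, hε, hε1, hε2⟩ : ∃ ε : ℝ, 0 < ε ∧ ε ≤ 1 / 2 ∧ ε * (2 * σ + 2) ≤ η := by
    refine ⟨min (1 / 2) (η / (2 * σ + 2)), lt_min (by norm_num) (by positivity), min_le_left _ _, ?_⟩
    calc min (1 / 2) (η / (2 * σ + 2)) * (2 * σ + 2) ≤ η / (2 * σ + 2) * (2 * σ + 2) := by
          gcongr
          exact min_le_right _ _
      _ = η := by field_simp
  filter_upwards [mean (fun m => μ.real (E m)) T H.mono H.small H.law C hC ε hε,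
    tlog.eventually_ge_atTop 1] with n g1 g2
  obtain ⟨m1, m2, m3⟩ := g1
  have hL0 : 0 < Real.log n := by linarith
  have hq0 : ∀ m, 0 ≤ μ.real (E m) := fun m => measureReal_nonneg
  have h1 : Real.exp (-((1 + 2 * ε) * ∑ m ∈ blk C n, μ.real (E m))) ≤ ∏ m ∈ blk C n, (1 - μ.real (E m)) := by
    rw [mul_sum, ← sum_neg_distrib, Real.exp_sum]
    apply Finset.prod_le_prod
    · intro m _
      positivity
    · intro m hm
      refine le_trans (Real.exp_le_exp.2 ?_) (one_sub_ge (μ.real (E m)) (hq0 m) ((m3 m hm).trans hε1))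
      nlinarith [hq0 m, m3 m hm]
  refine le_trans (Real.exp_le_exp.2 ?_) h1
  apply neg_le_neg
  rw [← hσ] at m2 ⊢
  calc (1 + 2 * ε) * ∑ m ∈ blk C n, μ.real (E m) ≤ (1 + 2 * ε) * ((σ + ε) * Real.log n) := by gcongr
    _ = (1 + 2 * ε) * (σ + ε) * Real.log n := by ring
    _ ≤ (σ + η) * Real.log n := by
      apply mul_le_mul_of_nonneg_right _ hL0.le
      nlinarith

theorem lt_lo {E : ℕ → Set Ω} {T : ℕ → ℕ} {C : ℝ} (H : Hyp μ E T C) (x : ℝ) (hx0 : 0 ≤ x)
    (η : ℝ) (hη : 0 < η) : ∀ᶠ n : ℕ in atTop,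
      Real.exp (-((C / 2 * rate x + η) * Real.log n)) ≤ μ.real (FL E C x n) := by
  have hC := H.pos
  rcases hx0.eq_or_lt with h | h
  · subst h
    filter_upwards [none_prob H η hη] with n g1
    rw [rate_zero, mul_one]
    have h1 := pat_low H.meas H.indep (blk C n) 0
    rw [es_zero, mul_one] at h1
    refine g1.trans (h1.trans (measureReal_mono ?_))
    intro ω hω
    unfold FL
    simp only [Set.mem_setOf_eq] at hω ⊢
    rw [hω]
    simp
  · filter_upwards [low (fun m => μ.real (E m)) T H.mono H.small H.law C hC x η h hη,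
      tlog.eventually_ge_atTop 1] with n g1 g2
    have hL0 : 0 < Real.log n := by linarith
    have h0 : 0 ≤ x * (C / 2 * Real.log n) := by positivity
    have h1 := Nat.floor_le h0
    have h2 := Nat.lt_floor_add_one (x * (C / 2 * Real.log n))
    refine (g1 ⌊x * (C / 2 * Real.log n)⌋₊ (by rw [abs_le]; constructor <;> linarith)).trans ?_
    refine (pat_low H.meas H.indep (blk C n) _).trans (measureReal_mono ?_)
    intro ω hω
    unfold FL
    simp only [Set.mem_setOf_eq] at hω ⊢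
    rw [hω]
    exact h1

theorem gt_lo {E : ℕ → Set Ω} {T : ℕ → ℕ} {C : ℝ} (H : Hyp μ E T C) (x : ℝ) (hx0 : 0 < x)
    (η : ℝ) (hη : 0 < η) : ∀ᶠ n : ℕ in atTop,
      Real.exp (-((C / 2 * rate x + η) * Real.log n)) ≤ μ.real (FG E C x n) := by
  have hC := H.pos
  filter_upwards [low (fun m => μ.real (E m)) T H.mono H.small H.law C hC x η hx0 hη,
    tlog.eventually_ge_atTop 1] with n g1 g2
  have hL0 : 0 < Real.log n := by linarith
  have h0 : 0 ≤ x * (C / 2 * Real.log n) := by positivity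
  have h1 := Nat.le_ceil (x * (C / 2 * Real.log n))
  have h2 := Nat.ceil_lt_add_one h0
  refine (g1 ⌈x * (C / 2 * Real.log n)⌉₊ (by rw [abs_le]; constructor <;> linarith)).trans ?_
  refine (pat_low H.meas H.indep (blk C n) _).trans (measureReal_mono ?_)
  intro ω hω
  unfold FG
  simp only [Set.mem_setOf_eq] at hω ⊢
  rw [hω]
  exact h1

theorem FL_meas {E : ℕ → Set Ω} {T : ℕ → ℕ} {C : ℝ} (H : Hyp μ E T C) (x : ℝ) (n : ℕ) :
    MeasurableSet (FL E C x n) :=
  pat_meas' H.meas (blk C n) (fun A => ((A.card : ℕ) : ℝ) ≤ x * (C / 2 * Real.log n))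

theorem FG_meas {E : ℕ → Set Ω} {T : ℕ → ℕ} {C : ℝ} (H : Hyp μ E T C) (x : ℝ) (n : ℕ) :
    MeasurableSet (FG E C x n) :=
  pat_meas' H.meas (blk C n) (fun A => x * (C / 2 * Real.log n) ≤ ((A.card : ℕ) : ℝ))

theorem blk_pair {C : ℝ} (hC : 0 < C) : ∃ n₀ : ℕ,
    Pairwise (Function.onFun Disjoint (fun n => blk C (n + n₀))) := by
  obtain ⟨n₀, h⟩ := blk_disj C hC
  refine ⟨n₀, fun a b hab => ?_⟩
  show Disjoint (blk C (a + n₀)) (blk C (b + n₀))
  rcases Nat.lt_or_gt_of_ne hab with h1 | h1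
  · exact h _ _ (by omega) (by omega)
  · exact (h _ _ (by omega) (by omega)).symm

/-- few elements: never -/
theorem lt_never {E : ℕ → Set Ω} {T : ℕ → ℕ} {C : ℝ} (H : Hyp μ E T C) (x : ℝ) (hx0 : 0 ≤ x) (hx1 : x < 1)
    (hr : 1 < C / 2 * rate x) : ∀ᵐ ω ∂μ, ∀ᶠ n : ℕ in atTop, ω ∉ FL E C x n := by
  apply bc1
  apply conv_of _ (C / 2 * rate x - (C / 2 * rate x - 1) / 2) (by linarith)
  exact lt_up H x hx0 hx1 _ (by linarith)

theorem gt_never {E : ℕ → Set Ω} {T : ℕ → ℕ} {C : ℝ} (H : Hyp μ E T C) (x : ℝ) (hx1 : 1 < x)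
    (hr : 1 < C / 2 * rate x) : ∀ᵐ ω ∂μ, ∀ᶠ n : ℕ in atTop, ω ∉ FG E C x n := by
  apply bc1
  apply conv_of _ (C / 2 * rate x - (C / 2 * rate x - 1) / 2) (by linarith)
  exact gt_up H x hx1 _ (by linarith)

/-- few elements: the number of times -/
theorem lt_num {E : ℕ → Set Ω} {T : ℕ → ℕ} {C : ℝ} (H : Hyp μ E T C) (x : ℝ) (hx0 : 0 ≤ x) (hx1 : x < 1)
    (hr : C / 2 * rate x < 1) : ∀ᵐ ω ∂μ, ∀ ε : ℝ, 0 < ε → ∀ᶠ N : ℕ in atTop,
      (N : ℝ) ^ (1 - C / 2 * rate x - ε) ≤ (num (FL E C x) ω N : ℝ) ∧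
      (num (FL E C x) ω N : ℝ) ≤ (N : ℝ) ^ (1 - C / 2 * rate x + ε) := by
  have hC := H.pos
  obtain ⟨n₀, hn₀⟩ := blk_pair hC
  apply spec (FL E C x) (FL_meas H x) n₀ _ _ (mul_nonneg (by positivity) (rate_nonneg x hx0)) hr
  · intro η hη
    exact lt_up H x hx0 hx1 η hη
  · intro η hη
    exact lt_lo H x hx0 η hη
  · exact pat_indep H.meas H.indep (fun n => blk C (n + n₀)) hn₀
      (fun n A => ((A.card : ℕ) : ℝ) ≤ x * (C / 2 * Real.log ((n + n₀ : ℕ) : ℝ)))

theorem gt_num {E : ℕ → Set Ω} {T : ℕ → ℕ} {C : ℝ} (H : Hyp μ E T C) (x : ℝ) (hx1 : 1 < x)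
    (hr : C / 2 * rate x < 1) : ∀ᵐ ω ∂μ, ∀ ε : ℝ, 0 < ε → ∀ᶠ N : ℕ in atTop,
      (N : ℝ) ^ (1 - C / 2 * rate x - ε) ≤ (num (FG E C x) ω N : ℝ) ∧
      (num (FG E C x) ω N : ℝ) ≤ (N : ℝ) ^ (1 - C / 2 * rate x + ε) := by
  have hC := H.pos
  have hx0 : 0 < x := by linarith
  obtain ⟨n₀, hn₀⟩ := blk_pair hC
  apply spec (FG E C x) (FG_meas H x) n₀ _ _ (mul_nonneg (by positivity) (rate_nonneg x hx0.le)) hr
  · intro η hη
    exact gt_up H x hx1 η hη
  · intro η hη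
    exact gt_lo H x hx0 η hη
  · exact pat_indep H.meas H.indep (fun n => blk C (n + n₀)) hn₀
      (fun n A => x * (C / 2 * Real.log ((n + n₀ : ℕ) : ℝ)) ≤ ((A.card : ℕ) : ℝ))

omit [MeasurableSpace Ω] in
/-- many times: infinitely often -/
theorem io_of_num (F : ℕ → Set Ω) (ω : Ω) (s : ℝ) (hs : 0 < s)
    (h : ∀ᶠ N : ℕ in atTop, (N : ℝ) ^ s ≤ (num F ω N : ℝ)) : ∃ᶠ n : ℕ in atTop, ω ∈ F n := by
  rw [Nat.frequently_atTop_iff_infinite]
  intro hfin
  have hlim : Tendsto (fun N : ℕ => (N : ℝ) ^ s) atTop atTop :=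
    (tendsto_rpow_atTop hs).comp tendsto_natCast_atTop_atTop
  obtain ⟨N, g1, g2⟩ := (h.and (hlim.eventually_gt_atTop (({n | ω ∈ F n}.ncard : ℕ) : ℝ))).exists
  have h1 : num F ω N ≤ {n | ω ∈ F n}.ncard := by
    unfold num
    apply Set.ncard_le_ncard _ hfin
    intro n hn
    exact hn.2
  have h2 : (num F ω N : ℝ) ≤ (({n | ω ∈ F n}.ncard : ℕ) : ℝ) := by exact_mod_cast h1
  linarith

/-! ## Numerical values -/

theorem log2 : (0.9609 : ℝ) < 2 * (Real.log 2) ^ 2 ∧ 2 * (Real.log 2) ^ 2 < 0.9610 := by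
  have h1 := Real.log_two_lt_d9
  have h2 := Real.log_two_gt_d9
  constructor <;> nlinarith

theorem rate1 : (0.961 : ℝ) < rate (1 / 160) := by
  have h1 : Real.log 160 < 5.09 := by
    rw [Real.log_lt_iff_lt_exp (by norm_num)]
    have h2 : Real.exp 5.09 = Real.exp 1 ^ 5 * Real.exp 0.09 := by
      rw [← Real.exp_nat_mul, ← Real.exp_add]
      norm_num
    rw [h2]
    have h3 : (1.09 : ℝ) ≤ Real.exp 0.09 := by
      have := Real.add_one_le_exp (0.09 : ℝ)
      linarith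
    have h4 : (2.7182818283 : ℝ) ^ 5 ≤ Real.exp 1 ^ 5 :=
      pow_le_pow_left₀ (by norm_num) Real.exp_one_gt_d9.le 5
    calc (160 : ℝ) < (2.7182818283 : ℝ) ^ 5 * 1.09 := by norm_num
      _ ≤ _ := by gcongr
  unfold rate
  rw [one_div, Real.log_inv]
  norm_num
  linarith

theorem rate2 : rate (1 / 150) < 0.9601 := by
  have h1 : 5 < Real.log 150 := by
    rw [Real.lt_log_iff_exp_lt (by norm_num)]
    have h2 : Real.exp 5 = Real.exp 1 ^ 5 := by
      rw [← Real.exp_nat_mul]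
      norm_num
    rw [h2]
    have h4 : Real.exp 1 ^ 5 ≤ (2.7182818286 : ℝ) ^ 5 :=
      pow_le_pow_left₀ (Real.exp_pos _).le Real.exp_one_lt_d9.le 5
    calc Real.exp 1 ^ 5 ≤ _ := h4
      _ < 150 := by norm_num
  unfold rate
  rw [one_div, Real.log_inv]
  norm_num
  linarith

theorem rate3 : (0.961 : ℝ) < rate 2.7 := by
  have h1 : 0.99 < Real.log 2.7 := by
    rw [Real.lt_log_iff_exp_lt (by norm_num)]
    have h2 : Real.exp 0.99 * Real.exp 0.01 = Real.exp 1 := by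
      rw [← Real.exp_add]
      norm_num
    have h3 : (1.01 : ℝ) ≤ Real.exp 0.01 := by
      have := Real.add_one_le_exp (0.01 : ℝ)
      linarith
    have h4 := Real.exp_one_lt_d9
    have h5 := Real.exp_pos (0.99 : ℝ)
    nlinarith
  unfold rate
  linarith

theorem rate4 : rate 2.66 < 0.9469 := by
  have h1 : Real.log 2.66 < 0.98 := by
    rw [Real.log_lt_iff_lt_exp (by norm_num)]
    have h2 : Real.exp 0.98 = Real.exp 1 * Real.exp (-0.02) := by
      rw [← Real.exp_add]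
      norm_num
    rw [h2]
    have h3 : (0.98 : ℝ) ≤ Real.exp (-0.02) := by
      have := Real.add_one_le_exp (-0.02 : ℝ)
      linarith
    have h4 := Real.exp_one_gt_d9
    nlinarith
  unfold rate
  linarith

end Pool.Agent.U746.LD
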