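import Mathlib
import Pool.Agent.U746.LD.Tail

set_option autoImplicit false

/-! # Large deviations of the number of chosen elements in general windows -/

open Finset Filter Topology MeasureTheory ProbabilityTheory

namespace Pool.Agent.U746.LD

open Pool.Agent.U839.Thin (tlog one_sub_ge)
open Pool.Agent.U746.HL (chern)

/-- the sum over the window is asymptotically `σ log n`, the terms tend to `0` -/
def Mean (q : ℕ → ℝ) (I : ℕ → Finset ℕ) (σ : ℝ) : Prop :=
  ∀ ε : ℝ, 0 < ε → ∀ᶠ n : ℕ in atTop, (σ - ε) * Real.log n ≤ ∑ m ∈ I n, q m ∧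
      ∑ m ∈ I n, q m ≤ (σ + ε) * Real.log n ∧ ∀ m ∈ I n, q m ≤ ε

/-- **Lower bound**: the probability of exactly `K` chosen elements for `K` close to `x σ log n` -/
theorem low_gen (q : ℕ → ℝ) (hq0 : ∀ m, 0 ≤ q m) (I : ℕ → Finset ℕ) (σ : ℝ) (hσ0 : 0 < σ)
    (hmean : Mean q I σ) (x η : ℝ) (hx : 0 < x)
    (hη : 0 < η) : ∀ᶠ n : ℕ in atTop, ∀ K : ℕ, |(K : ℝ) - x * (σ * Real.log n)| ≤ 1 →
      Real.exp (-((σ * rate x + η) * Real.log n)) ≤
        (∏ m ∈ I n, (1 - q m)) * es q K (I n) := by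
  obtain ⟨ε, hε, hε1, hε2, hε3, hε4⟩ := low_eps σ x η hσ0 hx hη
  obtain ⟨u, hu⟩ : ∃ u, u = x * σ + ε := ⟨_, rfl⟩
  obtain ⟨b, hb⟩ : ∃ b, b = σ - ε - 2 * ε * (x * σ + ε) := ⟨_, rfl⟩
  rw [← hb] at hε3 hε4
  rw [← hu] at hε2 hε4 hb
  have hu0 : 0 < u := by rw [hu]; positivity
  obtain ⟨c, hc⟩ : ∃ c, c = 1 + Real.log (b / u) := ⟨_, rfl⟩
  rw [← hc] at hε4
  -- the error term
  have herr : ∀ᶠ n : ℕ in atTop, |c| + 1 + Real.log (u * Real.log n) ≤ η / 2 * Real.log n := by
    have h1 : ∀ᶠ y : ℝ in atTop, Real.log y ≤ η / 8 * y := by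
      have := isLittleO_log_rpow_atTop (r := 1) (by norm_num)
      have h2 := this.bound (show (0 : ℝ) < η / 8 by positivity)
      filter_upwards [h2, eventually_ge_atTop 1] with y g1 g2
      rw [Real.norm_of_nonneg (Real.log_nonneg g2), Real.rpow_one, Real.norm_of_nonneg (by linarith)] at g1
      exact g1
    filter_upwards [tlog.eventually h1, tlog.eventually_ge_atTop 1,
      tlog.eventually_ge_atTop ((|c| + 1 + |Real.log u|) / (η / 4))] with n g1 g2 g3
    rw [div_le_iff₀ (by positivity)] at g3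
    rw [Real.log_mul hu0.ne' (by linarith)]
    have := le_abs_self (Real.log u)
    nlinarith
  filter_upwards [hmean ε hε, herr, tlog.eventually_ge_atTop 1,
    tlog.eventually_ge_atTop (1 / ε), tlog.eventually_ge_atTop (2 / (x * σ))] with n g1 g2 g3 g4 g5
  intro K hK
  obtain ⟨m1, m2, m3⟩ := g1
  obtain ⟨L, hL⟩ : ∃ L, L = Real.log (n : ℝ) := ⟨_, rfl⟩
  rw [← hL] at m1 m2 hK g2 g3 g4 g5 ⊢
  obtain ⟨e, he⟩ : ∃ e, e = ∑ m ∈ I n, q m := ⟨_, rfl⟩
  rw [← he] at m1 m2
  have hL0 : 0 < L := by linarith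
  rw [div_le_iff₀ hε] at g4
  rw [div_le_iff₀ (by positivity)] at g5
  obtain ⟨hK1, hK2⟩ := abs_le.1 hK
  have hKu : (K : ℝ) ≤ u * L := by
    rw [hu]
    nlinarith
  have hK1' : (1 : ℝ) ≤ K := by nlinarith
  have hKn : 1 ≤ K := by exact_mod_cast hK1'
  -- the elementary symmetric sum
  have hKe : 4 * ε * (K : ℝ) ≤ e := by
    have h1 : 4 * ε * (K : ℝ) ≤ 4 * ε * (u * L) := by gcongr
    have h2 : 4 * ε * u * L ≤ (σ - ε) * L := by gcongr
    linarith
  have hes := es_low q hq0 ε hε.le (I n) m3 K (by rw [← he]; exact hKe)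
  rw [← he] at hes
  have hbL : b * L ≤ e - 2 * ε * K := by
    have h1 : 2 * ε * (K : ℝ) ≤ 2 * ε * (u * L) := by gcongr
    rw [hb]
    nlinarith
  have hbL0 : 0 < b * L := by positivity
  have hf0 : (0 : ℝ) < K.factorial := by exact_mod_cast K.factorial_pos
  have hes2 : Real.exp (K * Real.log (b * L) - (K * Real.log K - K + 1 + Real.log K)) ≤ es q K (I n) := by
    refine le_trans ?_ hes
    rw [Real.exp_sub, le_div_iff₀ hf0]
    have h1 : Real.exp (K * Real.log (b * L)) = (b * L) ^ K := by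
      rw [Real.exp_nat_mul, Real.exp_log hbL0]
    have h2 := fact_le K hKn
    have h3 : (0 : ℝ) < Real.exp (K * Real.log K - K + 1 + Real.log K) := Real.exp_pos _
    have h4 : (K.factorial : ℝ) / Real.exp (K * Real.log K - K + 1 + Real.log K) ≤ 1 := by
      rw [div_le_one h3]
      exact h2
    calc Real.exp (K * Real.log (b * L)) / Real.exp (K * Real.log K - K + 1 + Real.log K) * K.factorial
        = (b * L) ^ K * (K.factorial / Real.exp (K * Real.log K - K + 1 + Real.log K)) := by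
          rw [h1]; ring
      _ ≤ (b * L) ^ K * 1 := by gcongr
      _ ≤ (e - 2 * ε * K) ^ K := by
          rw [mul_one]
          exact pow_le_pow_left₀ hbL0.le hbL K
  -- the product
  have hprod : Real.exp (-((1 + 2 * ε) * ((σ + ε) * L))) ≤ ∏ m ∈ I n, (1 - q m) := by
    have h1 : Real.exp (-((1 + 2 * ε) * e)) ≤ ∏ m ∈ I n, (1 - q m) := by
      rw [he, mul_sum, ← sum_neg_distrib, Real.exp_sum]
      apply Finset.prod_le_prod
      · intro m _
        positivity
      · intro m hm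
        refine le_trans (Real.exp_le_exp.2 ?_) (one_sub_ge (q m) (hq0 m) ((m3 m hm).trans hε1))
        nlinarith [hq0 m, m3 m hm]
    refine le_trans (Real.exp_le_exp.2 ?_) h1
    apply neg_le_neg
    gcongr
  have hall : Real.exp (-((1 + 2 * ε) * ((σ + ε) * L))) *
      Real.exp (K * Real.log (b * L) - (K * Real.log K - K + 1 + Real.log K)) ≤
      (∏ m ∈ I n, (1 - q m)) * es q K (I n) :=
    mul_le_mul hprod hes2 (Real.exp_pos _).le (le_trans (Real.exp_pos _).le hprod)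
  refine le_trans ?_ hall
  rw [← Real.exp_add]
  apply Real.exp_le_exp.2
  -- the exponent
  have hlogK : Real.log K ≤ Real.log (u * L) := Real.log_le_log (by linarith) hKu
  have hKlog : (K : ℝ) * Real.log (b / u) ≤ K * Real.log (b * L) - K * Real.log K := by
    have h1 : Real.log (b * L) - Real.log (u * L) = Real.log (b / u) := by
      rw [Real.log_mul hε3.ne' hL0.ne', Real.log_mul hu0.ne' hL0.ne', Real.log_div hε3.ne' hu0.ne']
      ring
    have h2 : (K : ℝ) * Real.log K ≤ K * Real.log (u * L) := by gcongr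
    nlinarith
  have hKc : x * (σ * L) * c - |c| ≤ K * c := by
    have h1 : -(|c|) ≤ (K - x * (σ * L)) * c := by
      have h2 : |((K : ℝ) - x * (σ * L)) * c| ≤ 1 * |c| := by
        rw [abs_mul]
        exact mul_le_mul_of_nonneg_right hK (abs_nonneg c)
      linarith [neg_abs_le (((K : ℝ) - x * (σ * L)) * c)]
    nlinarith
  have hfin : ((1 + 2 * ε) * (σ + ε) - x * σ * c) * L ≤ (σ * rate x + η / 2) * L := by gcongr
  have hc' : (K : ℝ) * c = K + K * Real.log (b / u) := by rw [hc]; ring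
  nlinarith

variable {Ω : Type*} [MeasurableSpace Ω] {μ : Measure Ω} [IsProbabilityMeasure μ]

/-- the assumptions on the model and the windows -/
structure Win (μ : Measure Ω) (E : ℕ → Set Ω) (I : ℕ → Finset ℕ) (σ : ℝ) : Prop where
  meas : ∀ n, MeasurableSet (E n)
  indep : iIndepSet E μ
  mean : Mean (fun m => μ.real (E m)) I σ
  pos : 0 < σ

/-- at most `x σ log n` elements -/
def WL (E : ℕ → Set Ω) (I : ℕ → Finset ℕ) (σ x : ℝ) (n : ℕ) : Set Ω :=
  {ω | ((pat E (I n) ω).card : ℝ) ≤ x * (σ * Real.log n)}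

/-- at least `x σ log n` elements -/
def WG (E : ℕ → Set Ω) (I : ℕ → Finset ℕ) (σ x : ℝ) (n : ℕ) : Set Ω :=
  {ω | x * (σ * Real.log n) ≤ ((pat E (I n) ω).card : ℝ)}

theorem g_lt_up {E : ℕ → Set Ω} {I : ℕ → Finset ℕ} {σ : ℝ} (H : Win μ E I σ) (x : ℝ) (hx0 : 0 ≤ x) (hx1 : x < 1)
    (η : ℝ) (hη : 0 < η) : ∀ᶠ n : ℕ in atTop,
      μ.real (WL E I σ x n) ≤ Real.exp (-((σ * rate x - η) * Real.log n)) := by
  have hσ0 := H.pos
  rcases hx0.eq_or_lt with h | h
  · subst h
    obtain ⟨δ, hδ, hδ1, hδ2⟩ : ∃ δ : ℝ, 0 < δ ∧ δ ≤ 1 ∧ σ * δ ≤ η / 2 := by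
      refine ⟨min 1 (η / (2 * σ)), lt_min one_pos (by positivity), min_le_left _ _, ?_⟩
      calc σ * min 1 (η / (2 * σ)) ≤ σ * (η / (2 * σ)) := by
            gcongr
            exact min_le_right _ _
        _ = η / 2 := by field_simp
    filter_upwards [H.mean (η / 2) (by positivity),
      tlog.eventually_ge_atTop 1] with n g1 g2
    have hL0 : 0 < Real.log n := by linarith
    refine (chern_low H.meas H.indep (I n) (-Real.log δ) _ _ (by
      have := Real.log_nonpos hδ.le hδ1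
      linarith) g1.1).trans ?_
    apply Real.exp_le_exp.2
    rw [neg_neg, Real.exp_log hδ, rate_zero]
    have h2 : (σ - η) * Real.log n ≤ (σ - η / 2) * (1 - δ) * Real.log n := by
      apply mul_le_mul_of_nonneg_right _ hL0.le
      nlinarith
    nlinarith
  · filter_upwards [H.mean η hη,
      tlog.eventually_ge_atTop 1] with n g1 g2
    have hL0 : 0 < Real.log n := by linarith
    refine (chern_low H.meas H.indep (I n) (-Real.log x) _ _ (by
      have := Real.log_nonpos h.le hx1.le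
      linarith) g1.1).trans ?_
    apply Real.exp_le_exp.2
    rw [neg_neg, Real.exp_log h]
    unfold rate
    have h2 : 0 ≤ η * x * Real.log n := by positivity
    nlinarith

theorem g_gt_up {E : ℕ → Set Ω} {I : ℕ → Finset ℕ} {σ : ℝ} (H : Win μ E I σ) (x : ℝ) (hx1 : 1 < x)
    (η : ℝ) (hη : 0 < η) : ∀ᶠ n : ℕ in atTop,
      μ.real (WG E I σ x n) ≤ Real.exp (-((σ * rate x - η) * Real.log n)) := by
  have hσ0 := H.pos
  have hx0 : 0 < x := by linarith
  filter_upwards [H.mean (η / x) (by positivity),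
    tlog.eventually_ge_atTop 1] with n g1 g2
  have hL0 : 0 < Real.log n := by linarith
  refine (chern H.meas H.indep (I n) (Real.log x) _ _ (Real.log_nonneg hx1.le) g1.2.1
    (fun ω => (pat E (I n) ω).card) (fun ω => pat_card E _ ω)).trans ?_
  apply Real.exp_le_exp.2
  rw [Real.exp_log hx0]
  unfold rate
  have h2 : η / x * (x - 1) ≤ η := by
    rw [div_mul_eq_mul_div, div_le_iff₀ hx0]
    nlinarith
  have h3 : η / x * (x - 1) * Real.log n ≤ η * Real.log n := by gcongr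
  nlinarith

theorem g_none_prob {E : ℕ → Set Ω} {I : ℕ → Finset ℕ} {σ : ℝ} (H : Win μ E I σ) (η : ℝ) (hη : 0 < η) :
    ∀ᶠ n : ℕ in atTop, Real.exp (-((σ + η) * Real.log n)) ≤
      (∏ m ∈ I n, (1 - μ.real (E m))) := by
  have hσ0 := H.pos
  obtain ⟨ε, hε, hε1, hε2⟩ : ∃ ε : ℝ, 0 < ε ∧ ε ≤ 1 / 2 ∧ ε * (2 * σ + 2) ≤ η := by
    refine ⟨min (1 / 2) (η / (2 * σ + 2)), lt_min (by norm_num) (by positivity), min_le_left _ _, ?_⟩
    calc min (1 / 2) (η / (2 * σ + 2)) * (2 * σ + 2) ≤ η / (2 * σ + 2) * (2 * σ + 2) := by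
          gcongr
          exact min_le_right _ _
      _ = η := by field_simp
  filter_upwards [H.mean ε hε,
    tlog.eventually_ge_atTop 1] with n g1 g2
  obtain ⟨m1, m2, m3⟩ := g1
  have hL0 : 0 < Real.log n := by linarith
  have hq0 : ∀ m, 0 ≤ μ.real (E m) := fun m => measureReal_nonneg
  have h1 : Real.exp (-((1 + 2 * ε) * ∑ m ∈ I n, μ.real (E m))) ≤ ∏ m ∈ I n, (1 - μ.real (E m)) := by
    rw [mul_sum, ← sum_neg_distrib, Real.exp_sum]
    apply Finset.prod_le_prod
    · intro m _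
      positivity
    · intro m hm
      refine le_trans (Real.exp_le_exp.2 ?_) (one_sub_ge (μ.real (E m)) (hq0 m) ((m3 m hm).trans hε1))
      nlinarith [hq0 m, m3 m hm]
  refine le_trans (Real.exp_le_exp.2 ?_) h1
  apply neg_le_neg
  calc (1 + 2 * ε) * ∑ m ∈ I n, μ.real (E m) ≤ (1 + 2 * ε) * ((σ + ε) * Real.log n) := by gcongr
    _ = (1 + 2 * ε) * (σ + ε) * Real.log n := by ring
    _ ≤ (σ + η) * Real.log n := by
      apply mul_le_mul_of_nonneg_right _ hL0.le
      nlinarith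

theorem g_lt_lo {E : ℕ → Set Ω} {I : ℕ → Finset ℕ} {σ : ℝ} (H : Win μ E I σ) (x : ℝ) (hx0 : 0 ≤ x)
    (η : ℝ) (hη : 0 < η) : ∀ᶠ n : ℕ in atTop,
      Real.exp (-((σ * rate x + η) * Real.log n)) ≤ μ.real (WL E I σ x n) := by
  have hσ0 := H.pos
  rcases hx0.eq_or_lt with h | h
  · subst h
    filter_upwards [g_none_prob H η hη] with n g1
    rw [rate_zero, mul_one]
    have h1 := pat_low H.meas H.indep (I n) 0
    rw [es_zero, mul_one] at h1
    refine g1.trans (h1.trans (measureReal_mono ?_))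
    intro ω hω
    unfold WL
    simp only [Set.mem_setOf_eq] at hω ⊢
    rw [hω]
    simp
  · filter_upwards [low_gen (fun m => μ.real (E m)) (fun _ => measureReal_nonneg) I σ H.pos H.mean x η h hη,
      tlog.eventually_ge_atTop 1] with n g1 g2
    have hL0 : 0 < Real.log n := by linarith
    have h0 : 0 ≤ x * (σ * Real.log n) := by positivity
    have h1 := Nat.floor_le h0
    have h2 := Nat.lt_floor_add_one (x * (σ * Real.log n))
    refine (g1 ⌊x * (σ * Real.log n)⌋₊ (by rw [abs_le]; constructor <;> linarith)).trans ?_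
    refine (pat_low H.meas H.indep (I n) _).trans (measureReal_mono ?_)
    intro ω hω
    unfold WL
    simp only [Set.mem_setOf_eq] at hω ⊢
    rw [hω]
    exact h1

theorem g_gt_lo {E : ℕ → Set Ω} {I : ℕ → Finset ℕ} {σ : ℝ} (H : Win μ E I σ) (x : ℝ) (hx0 : 0 < x)
    (η : ℝ) (hη : 0 < η) : ∀ᶠ n : ℕ in atTop,
      Real.exp (-((σ * rate x + η) * Real.log n)) ≤ μ.real (WG E I σ x n) := by
  have hσ0 := H.pos
  filter_upwards [low_gen (fun m => μ.real (E m)) (fun _ => measureReal_nonneg) I σ H.pos H.mean x η hx0 hη,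
    tlog.eventually_ge_atTop 1] with n g1 g2
  have hL0 : 0 < Real.log n := by linarith
  have h0 : 0 ≤ x * (σ * Real.log n) := by positivity
  have h1 := Nat.le_ceil (x * (σ * Real.log n))
  have h2 := Nat.ceil_lt_add_one h0
  refine (g1 ⌈x * (σ * Real.log n)⌉₊ (by rw [abs_le]; constructor <;> linarith)).trans ?_
  refine (pat_low H.meas H.indep (I n) _).trans (measureReal_mono ?_)
  intro ω hω
  unfold WG
  simp only [Set.mem_setOf_eq] at hω ⊢
  rw [hω]
  exact h1

theorem WL_meas {E : ℕ → Set Ω} {I : ℕ → Finset ℕ} {σ : ℝ} (H : Win μ E I σ) (x : ℝ) (n : ℕ) :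
    MeasurableSet (WL E I σ x n) :=
  pat_meas' H.meas (I n) (fun A => ((A.card : ℕ) : ℝ) ≤ x * (σ * Real.log n))

theorem WG_meas {E : ℕ → Set Ω} {I : ℕ → Finset ℕ} {σ : ℝ} (H : Win μ E I σ) (x : ℝ) (n : ℕ) :
    MeasurableSet (WG E I σ x n) :=
  pat_meas' H.meas (I n) (fun A => x * (σ * Real.log n) ≤ ((A.card : ℕ) : ℝ))

/-- few elements: never -/
theorem g_lt_never {E : ℕ → Set Ω} {I : ℕ → Finset ℕ} {σ : ℝ} (H : Win μ E I σ) (x : ℝ) (hx0 : 0 ≤ x) (hx1 : x < 1)
    (hr : 1 < σ * rate x) : ∀ᵐ ω ∂μ, ∀ᶠ n : ℕ in atTop, ω ∉ WL E I σ x n := by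
  apply bc1
  apply conv_of _ (σ * rate x - (σ * rate x - 1) / 2) (by linarith)
  exact g_lt_up H x hx0 hx1 _ (by linarith)

theorem g_gt_never {E : ℕ → Set Ω} {I : ℕ → Finset ℕ} {σ : ℝ} (H : Win μ E I σ) (x : ℝ) (hx1 : 1 < x)
    (hr : 1 < σ * rate x) : ∀ᵐ ω ∂μ, ∀ᶠ n : ℕ in atTop, ω ∉ WG E I σ x n := by
  apply bc1
  apply conv_of _ (σ * rate x - (σ * rate x - 1) / 2) (by linarith)
  exact g_gt_up H x hx1 _ (by linarith)

end Pool.Agent.U746.LD
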