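import Mathlib
import Pool.Agent.U746.LD.Gen

set_option autoImplicit false

/-! # Windows of length `C (log n) ^ 2` at all integers -/

open Finset Filter Topology MeasureTheory ProbabilityTheory

namespace Pool.Agent.U746.LD

open Pool.Agent.U839.Sv (fT fT_nonneg regular rho_small dens sub_pow wn log_sq_small)
open Pool.Agent.U839.Thin (tlog)

/-- the window -/
noncomputable def WI (C : ℝ) (n : ℕ) : Finset ℕ := Ioc n (n + wn C n)

theorem wsize (C : ℝ) (hC : 0 < C) (ε : ℝ) (hε : 0 < ε) : ∀ᶠ n : ℕ in atTop, ∀ m ∈ WI C n,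
    n ≤ m ∧ Real.log n ≤ Real.log m ∧ Real.log m ≤ (1 + ε) * Real.log n := by
  filter_upwards [log_sq_small C 1 hC (by norm_num), tlog.eventually_gt_atTop (1 / ε),
    eventually_ge_atTop 1] with n h1 h2 h3
  intro m hm
  unfold WI at hm
  rw [mem_Ioc] at hm
  have hn0 : (1 : ℝ) ≤ n := by exact_mod_cast h3
  rw [Real.rpow_one] at h1
  have k1 : (n : ℝ) ≤ m := by exact_mod_cast hm.1.le
  have k2 : (m : ℝ) ≤ 2 * n := by
    have h4 : (m : ℝ) ≤ n + (wn C n : ℝ) := by exact_mod_cast hm.2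
    have h5 : (wn C n : ℝ) ≤ C * (Real.log n) ^ 2 := Nat.floor_le (by positivity)
    linarith
  refine ⟨hm.1.le, Real.log_le_log (by linarith) k1, ?_⟩
  have k3 := Real.log_le_log (by linarith : (0 : ℝ) < m) k2
  rw [Real.log_mul (by norm_num) (by linarith)] at k3
  have k4 := Real.log_two_lt_d9
  rw [div_lt_iff₀ hε] at h2
  nlinarith

theorem wmean (q : ℕ → ℝ) (T : ℕ → ℕ) (hT : Monotone T)
    (hTs : ∀ θ : ℝ, 0 < θ → ∀ᶠ n : ℕ in atTop, (T n : ℝ) ≤ (Real.log n) ^ θ)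
    (hq : ∀ m : ℕ, q m = min 1 (fT T m / Real.log m)) (C : ℝ) (hC : 0 < C) : Mean q (WI C) C := by
  intro ε hε
  obtain ⟨η, hη, hη1, hη2⟩ : ∃ η : ℝ, 0 < η ∧ η ≤ 1 ∧ 2 * C * η ≤ ε := by
    refine ⟨min 1 (ε / (2 * C)), lt_min one_pos (by positivity), min_le_left _ _, ?_⟩
    calc 2 * C * min 1 (ε / (2 * C)) ≤ 2 * C * (ε / (2 * C)) := by
          gcongr
          exact min_le_right _ _
      _ = ε := by field_simp
  have hsp := sub_pow T 1 (hTs 1 one_pos)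
  obtain ⟨n₁, hn₁⟩ := eventually_atTop.1 (rho_small T hsp ε hε)
  obtain ⟨n₂, hn₂⟩ := eventually_atTop.1 (dens T hsp 1 one_pos)
  obtain ⟨θ, hθ, H⟩ := regular η hη
  filter_upwards [H T hT (hTs θ hθ) C hC, wsize C hC η hη, tlog.eventually_gt_atTop 1,
    eventually_ge_atTop (max n₁ n₂)] with n g0 g2 g3 g4
  have g1 := g0 n le_rfl (by omega)
  have hL0 : 0 < Real.log n := by linarith
  have hqr : ∀ m ∈ WI C n, q m = fT T m / Real.log m ∧ 0 ≤ q m ∧ 2 * q m ≤ ε := by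
    intro m hm
    obtain ⟨k1, k2, k3⟩ := g2 m hm
    have e1 : q m = fT T m / Real.log m := by
      rw [hq m, min_eq_right (hn₂ m ((le_max_right _ _).trans (g4.trans k1)))]
    have := hn₁ m ((le_max_left _ _).trans (g4.trans k1))
    rw [e1]
    exact ⟨rfl, this.1, this.2⟩
  have g1' : |∑ m ∈ WI C n, fT T m - C * (Real.log n) ^ 2| ≤ η * (C * (Real.log n) ^ 2) := g1
  refine ⟨?_, ?_, fun m hm => by linarith [(hqr m hm).2.1, (hqr m hm).2.2]⟩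
  · have h2 : (∑ m ∈ WI C n, fT T m) / ((1 + η) * Real.log n) ≤ ∑ m ∈ WI C n, q m := by
      rw [sum_div]
      apply sum_le_sum
      intro m hm
      obtain ⟨k1, k2, k3⟩ := g2 m hm
      rw [(hqr m hm).1]
      apply div_le_div_of_nonneg_left (fT_nonneg T m) (by linarith) k3
    refine le_trans ?_ h2
    rw [le_div_iff₀ (by positivity)]
    have h3 := (abs_le.1 g1').1
    have h4 : (1 - η) * (C * (Real.log n) ^ 2) ≤ ∑ m ∈ WI C n, fT T m := by linarith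
    refine le_trans ?_ h4
    have h5 : (C - ε) * (1 + η) ≤ (1 - η) * C := by nlinarith
    have h6 : (C - ε) * (1 + η) * (Real.log n) ^ 2 ≤ (1 - η) * C * (Real.log n) ^ 2 := by gcongr
    nlinarith
  · have h2 : ∑ m ∈ WI C n, q m ≤ (∑ m ∈ WI C n, fT T m) / Real.log n := by
      rw [sum_div]
      apply sum_le_sum
      intro m hm
      obtain ⟨k1, k2, k3⟩ := g2 m hm
      rw [(hqr m hm).1]
      apply div_le_div_of_nonneg_left (fT_nonneg T m) (by linarith) k2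
    have h3 := (abs_le.1 g1').2
    refine h2.trans ?_
    rw [div_le_iff₀ (by positivity)]
    have h4 : C * (1 + η) ≤ C + ε := by nlinarith
    have h5 : C * (1 + η) * (Real.log n) ^ 2 ≤ (C + ε) * (Real.log n) ^ 2 := by gcongr
    nlinarith

/-- a sequence of integers at larger distances -/
noncomputable def aj (δ : ℝ) (j : ℕ) : ℕ := ⌊(j : ℝ) ^ (1 + δ)⌋₊

theorem aj_le (δ : ℝ) (j : ℕ) : (aj δ j : ℝ) ≤ (j : ℝ) ^ (1 + δ) :=
  Nat.floor_le (by positivity)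

theorem pow_step (δ : ℝ) (hδ : 0 < δ) (j : ℕ) (hj : 1 ≤ j) :
    (j : ℝ) ^ (1 + δ) + (j : ℝ) ^ δ ≤ ((j + 1 : ℕ) : ℝ) ^ (1 + δ) := by
  have hj0 : (0 : ℝ) < j := by exact_mod_cast hj
  push_cast
  rw [Real.rpow_add hj0, Real.rpow_add (by linarith), Real.rpow_one, Real.rpow_one]
  have h1 : (j : ℝ) ^ δ ≤ ((j : ℝ) + 1) ^ δ := by gcongr; linarith
  have h2 : (0 : ℝ) ≤ (j : ℝ) ^ δ := by positivity
  nlinarith

theorem aj_succ (δ : ℝ) (hδ : 0 < δ) (j : ℕ) : aj δ j < aj δ (j + 1) := by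
  rcases Nat.eq_zero_or_pos j with h | h
  · subst h
    unfold aj
    simp [Real.zero_rpow (by linarith : 1 + δ ≠ 0)]
  · have h1 := pow_step δ hδ j h
    have hj0 : (1 : ℝ) ≤ j := by exact_mod_cast h
    have h2 : (1 : ℝ) ≤ (j : ℝ) ^ δ := Real.one_le_rpow hj0 hδ.le
    unfold aj
    have h3 : ⌊(j : ℝ) ^ (1 + δ) + 1⌋₊ ≤ ⌊((j + 1 : ℕ) : ℝ) ^ (1 + δ)⌋₊ := Nat.floor_le_floor (by linarith)
    rw [Nat.floor_add_one (by positivity)] at h3
    omega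

theorem aj_mono (δ : ℝ) (hδ : 0 < δ) : StrictMono (aj δ) := strictMono_nat_of_lt_succ (aj_succ δ hδ)

theorem log_aj (δ : ℝ) (hδ : 0 < δ) (j : ℕ) (hj : 1 ≤ j) :
    0 ≤ Real.log (aj δ j) ∧ Real.log (aj δ j) ≤ (1 + δ) * Real.log j := by
  have hj0 : (0 : ℝ) < j := by exact_mod_cast hj
  have h1 : 1 ≤ aj δ j := by
    have h2 := (aj_mono δ hδ).le_apply (x := j)
    omega
  have h1' : (0 : ℝ) < aj δ j := by exact_mod_cast h1
  refine ⟨Real.log_natCast_nonneg _, ?_⟩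
  have h2 := Real.log_le_log h1' (aj_le δ j)
  rwa [Real.log_rpow hj0] at h2

theorem aj_disj (C : ℝ) (hC : 0 < C) (δ : ℝ) (hδ : 0 < δ) : ∃ j₀ : ℕ,
    Pairwise (Function.onFun Disjoint (fun j => WI C (aj δ (j + j₀)))) := by
  have hev : ∀ᶠ j : ℕ in atTop, C * (Real.log (aj δ j)) ^ 2 + 1 ≤ (j : ℝ) ^ δ := by
    filter_upwards [log_sq_small (C * (1 + δ) ^ 2) δ (by positivity) hδ, eventually_ge_atTop 1] with j h1 h2
    obtain ⟨h3, h4⟩ := log_aj δ hδ j h2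
    have h5 : (Real.log (aj δ j)) ^ 2 ≤ ((1 + δ) * Real.log j) ^ 2 := pow_le_pow_left₀ h3 h4 2
    nlinarith
  obtain ⟨j₀, hj₀⟩ := eventually_atTop.1 hev
  refine ⟨j₀ + 1, ?_⟩
  have hstep : ∀ j, j₀ + 1 ≤ j → aj δ j + wn C (aj δ j) ≤ aj δ (j + 1) := by
    intro j hj
    have h1 := hj₀ j (by omega)
    have h2 := pow_step δ hδ j (by omega)
    have h3 : (wn C (aj δ j) : ℝ) ≤ C * (Real.log (aj δ j)) ^ 2 := Nat.floor_le (by positivity)
    have h4 := aj_le δ j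
    unfold aj at h1 h3 h4 ⊢
    apply Nat.le_floor
    push_cast at h2 ⊢
    linarith
  have hlt : ∀ i j, j₀ + 1 ≤ i → i < j → Disjoint (WI C (aj δ i)) (WI C (aj δ j)) := by
    intro i j hi hij
    rw [Finset.disjoint_left]
    intro m h1 h2
    unfold WI at h1 h2
    rw [mem_Ioc] at h1 h2
    have h3 := hstep i hi
    have h4 : aj δ (i + 1) ≤ aj δ j := (aj_mono δ hδ).monotone (by omega)
    omega
  intro a b hab
  show Disjoint (WI C (aj δ (a + (j₀ + 1)))) (WI C (aj δ (b + (j₀ + 1))))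
  rcases Nat.lt_or_gt_of_ne hab with h | h
  · exact hlt _ _ (by omega) (by omega)
  · exact (hlt _ _ (by omega) (by omega)).symm

variable {Ω : Type*} [MeasurableSpace Ω] {μ : Measure Ω} [IsProbabilityMeasure μ]

/-- a lower bound for the number of events if only a subsequence is independent -/
theorem num_sub (F : ℕ → Set Ω) (hFm : ∀ n, MeasurableSet (F n))
    (hind : ∀ δ : ℝ, 0 < δ → ∃ j₀ : ℕ, iIndepSet (fun j => F (aj δ (j + j₀))) μ)
    (r : ℝ) (hr0 : 0 ≤ r) (hr : r < 1)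
    (hlo : ∀ η : ℝ, 0 < η → ∀ᶠ n : ℕ in atTop, Real.exp (-((r + η) * Real.log n)) ≤ μ.real (F n))
    (ε : ℝ) (hε : 0 < ε) :
    ∀ᵐ ω ∂μ, ∀ᶠ N : ℕ in atTop, (N : ℝ) ^ (1 - r - ε) ≤ (num F ω N : ℝ) := by
  obtain ⟨e, he⟩ : ∃ e, e = min ε (1 - r) := ⟨_, rfl⟩
  have he0 : 0 < e := by rw [he]; exact lt_min hε (by linarith)
  have he1 : e ≤ ε := by rw [he]; exact min_le_left _ _
  have he2 : e ≤ 1 - r := by rw [he]; exact min_le_right _ _
  obtain ⟨δ, hδ⟩ : ∃ δ, δ = e / 4 := ⟨_, rfl⟩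
  have hδ0 : 0 < δ := by rw [hδ]; positivity
  have hδ1 : δ ≤ 1 / 4 := by rw [hδ]; linarith
  obtain ⟨s, hs⟩ : ∃ s, s = (1 + δ) * r := ⟨_, rfl⟩
  have hs0 : 0 ≤ s := by rw [hs]; positivity
  have hs1 : s + e / 2 ≤ 1 := by
    rw [hs]
    nlinarith
  obtain ⟨j₀, hj₀⟩ := hind δ hδ0
  have hta : Tendsto (aj δ) atTop atTop := (aj_mono δ hδ0).tendsto_atTop
  have hG : ∀ᶠ j : ℕ in atTop, Real.exp (-((s + e / 2 / 2) * Real.log j)) ≤ μ.real (F (aj δ j)) := by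
    filter_upwards [hta.eventually (hlo (e / 8) (by positivity)), eventually_ge_atTop 1] with j g1 g2
    refine le_trans (Real.exp_le_exp.2 ?_) g1
    obtain ⟨h3, h4⟩ := log_aj δ hδ0 j g2
    have h5 : (r + e / 8) * Real.log (aj δ j) ≤ (r + e / 8) * ((1 + δ) * Real.log j) := by gcongr
    have h6 : (r + e / 8) * (1 + δ) ≤ s + e / 2 / 2 := by
      rw [hs]
      nlinarith
    have h7 : (r + e / 8) * (1 + δ) * Real.log j ≤ (s + e / 2 / 2) * Real.log j :=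
      mul_le_mul_of_nonneg_right h6 (Real.log_natCast_nonneg j)
    linarith
  have hlim : Tendsto (fun N : ℕ => (N : ℝ) ^ (δ ^ 2 / (1 + δ))) atTop atTop :=
    (tendsto_rpow_atTop (by positivity)).comp tendsto_natCast_atTop_atTop
  have hlim2 : Tendsto (fun N : ℕ => ⌊(N : ℝ) ^ (1 / (1 + δ))⌋₊) atTop atTop :=
    tendsto_nat_floor_atTop.comp
      ((tendsto_rpow_atTop (by positivity)).comp tendsto_natCast_atTop_atTop)
  filter_upwards [num_low (fun j => F (aj δ j)) (fun j => hFm _) j₀ hj₀ s (e / 2) (by positivity) hs1 hs0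
    hG] with ω hω
  filter_upwards [hlim2.eventually hω, hlim.eventually_ge_atTop 2, eventually_ge_atTop 1] with N g1 g2 g3
  have hN1 : (1 : ℝ) ≤ N := by exact_mod_cast g3
  have hN0 : (0 : ℝ) < N := by linarith
  obtain ⟨J, hJ⟩ : ∃ J : ℕ, J = ⌊(N : ℝ) ^ (1 / (1 + δ))⌋₊ := ⟨_, rfl⟩
  rw [← hJ] at g1
  have hJle : (J : ℝ) ≤ (N : ℝ) ^ (1 / (1 + δ)) := by rw [hJ]; exact Nat.floor_le (by positivity)
  have hcard : (num (fun j => F (aj δ j)) ω J : ℝ) ≤ num F ω N := by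
    have : num (fun j => F (aj δ j)) ω J ≤ num F ω N := by
      unfold num
      refine Set.ncard_le_ncard_of_injOn (aj δ) ?_ ?_ ((Set.finite_Iic N).subset fun n hn => hn.1)
      · rintro j ⟨hj1, hj2⟩
        refine ⟨?_, hj2⟩
        have h1 : aj δ j ≤ aj δ J := (aj_mono δ hδ0).monotone hj1
        have h2 : (aj δ J : ℝ) ≤ N := by
          refine (aj_le δ J).trans ?_
          calc (J : ℝ) ^ (1 + δ) ≤ ((N : ℝ) ^ (1 / (1 + δ))) ^ (1 + δ) := by gcongr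
            _ = N := by
              rw [← Real.rpow_mul hN0.le, one_div, inv_mul_cancel₀ (by linarith), Real.rpow_one]
        have h3 : aj δ J ≤ N := by exact_mod_cast h2
        omega
      · intro a _ b _ hab
        exact (aj_mono δ hδ0).injective hab
    exact_mod_cast this
  refine le_trans ?_ (g1.trans hcard)
  have hJge : (N : ℝ) ^ (1 - δ) ≤ J := by
    have h1 : (N : ℝ) ^ (1 / (1 + δ)) < J + 1 := by rw [hJ]; exact Nat.lt_floor_add_one _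
    have h2 : (N : ℝ) ^ (1 / (1 + δ)) = (N : ℝ) ^ (1 - δ) * (N : ℝ) ^ (δ ^ 2 / (1 + δ)) := by
      rw [← Real.rpow_add hN0]
      congr 1
      field_simp
      try ring
    have h3 : (1 : ℝ) ≤ (N : ℝ) ^ (1 - δ) := Real.one_le_rpow hN1 (by linarith)
    nlinarith
  calc (N : ℝ) ^ (1 - r - ε) ≤ (N : ℝ) ^ ((1 - δ) * (1 - s - e / 2)) := by
        apply Real.rpow_le_rpow_of_exponent_le hN1
        have h1 : s = r + δ * r := by rw [hs]; ring
        have h2 : 0 ≤ 1 - s - e / 2 := by linarith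
        have h3 : 1 - s - e / 2 ≤ 1 := by linarith
        have h4 : δ * (1 - s - e / 2) ≤ δ := by nlinarith
        have h5 : δ * r ≤ δ := by nlinarith
        linarith
    _ = ((N : ℝ) ^ (1 - δ)) ^ (1 - s - e / 2) := by rw [Real.rpow_mul hN0.le]
    _ ≤ (J : ℝ) ^ (1 - s - e / 2) := by
        apply Real.rpow_le_rpow (by positivity) hJge (by linarith)

/-- all exponents at once -/
theorem spec_gen (F : ℕ → Set Ω) (r : ℝ)
    (h1 : ∀ ε : ℝ, 0 < ε → ∀ᵐ ω ∂μ, ∀ᶠ N : ℕ in atTop, (N : ℝ) ^ (1 - r - ε) ≤ (num F ω N : ℝ))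
    (h2 : ∀ ε : ℝ, 0 < ε → ∀ᵐ ω ∂μ, ∀ᶠ N : ℕ in atTop, (num F ω N : ℝ) ≤ (N : ℝ) ^ (1 - r + ε)) :
    ∀ᵐ ω ∂μ, ∀ ε : ℝ, 0 < ε → ∀ᶠ N : ℕ in atTop,
      (N : ℝ) ^ (1 - r - ε) ≤ (num F ω N : ℝ) ∧ (num F ω N : ℝ) ≤ (N : ℝ) ^ (1 - r + ε) := by
  have h3 : ∀ k : ℕ, ∀ᵐ ω ∂μ, (∀ᶠ N : ℕ in atTop,
      (N : ℝ) ^ (1 - r - 1 / (k + 1 : ℝ)) ≤ (num F ω N : ℝ)) ∧
      ∀ᶠ N : ℕ in atTop, (num F ω N : ℝ) ≤ (N : ℝ) ^ (1 - r + 1 / (k + 1 : ℝ)) := by
    intro k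
    have hk : (0 : ℝ) < 1 / (k + 1 : ℝ) := by positivity
    filter_upwards [h1 _ hk, h2 _ hk] with ω g1 g2
    exact ⟨g1, g2⟩
  filter_upwards [ae_all_iff.2 h3] with ω hω
  intro ε hε
  obtain ⟨k, hk⟩ := exists_nat_one_div_lt hε
  filter_upwards [(hω k).1, (hω k).2, eventually_ge_atTop 1] with N g1 g2 g3
  have hN1 : (1 : ℝ) ≤ N := by exact_mod_cast g3
  constructor
  · refine le_trans ?_ g1
    apply Real.rpow_le_rpow_of_exponent_le hN1
    linarith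
  · refine g2.trans ?_
    apply Real.rpow_le_rpow_of_exponent_le hN1
    linarith

theorem w_ind {E : ℕ → Set Ω} (hm : ∀ n, MeasurableSet (E n)) (hE : iIndepSet E μ) (C : ℝ) (hC : 0 < C)
    (P : ℕ → Finset ℕ → Prop) (δ : ℝ) (hδ : 0 < δ) :
    ∃ j₀ : ℕ, iIndepSet (fun j => {ω | P (aj δ (j + j₀)) (pat E (WI C (aj δ (j + j₀))) ω)}) μ := by
  obtain ⟨j₀, h⟩ := aj_disj C hC δ hδ
  exact ⟨j₀, pat_indep hm hE (fun j => WI C (aj δ (j + j₀))) h (fun j => P (aj δ (j + j₀)))⟩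

theorem w_lt_num {E : ℕ → Set Ω} {C : ℝ} (H : Win μ E (WI C) C) (x : ℝ) (hx0 : 0 ≤ x) (hx1 : x < 1)
    (hr : C * rate x < 1) : ∀ᵐ ω ∂μ, ∀ ε : ℝ, 0 < ε → ∀ᶠ N : ℕ in atTop,
      (N : ℝ) ^ (1 - C * rate x - ε) ≤ (num (WL E (WI C) C x) ω N : ℝ) ∧
      (num (WL E (WI C) C x) ω N : ℝ) ≤ (N : ℝ) ^ (1 - C * rate x + ε) := by
  apply spec_gen
  · intro ε hε
    apply num_sub _ (WL_meas H x) _ _ (mul_nonneg H.pos.le (rate_nonneg x hx0)) hr _ ε hε
    · intro δ hδ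
      exact w_ind H.meas H.indep C H.pos (fun n A => ((A.card : ℕ) : ℝ) ≤ x * (C * Real.log n)) δ hδ
    · intro η hη
      exact g_lt_lo H x hx0 η hη
  · intro ε hε
    exact num_up _ (WL_meas H x) _ ε hε hr (g_lt_up H x hx0 hx1 _ (by positivity))

theorem w_gt_num {E : ℕ → Set Ω} {C : ℝ} (H : Win μ E (WI C) C) (x : ℝ) (hx1 : 1 < x)
    (hr : C * rate x < 1) : ∀ᵐ ω ∂μ, ∀ ε : ℝ, 0 < ε → ∀ᶠ N : ℕ in atTop,
      (N : ℝ) ^ (1 - C * rate x - ε) ≤ (num (WG E (WI C) C x) ω N : ℝ) ∧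
      (num (WG E (WI C) C x) ω N : ℝ) ≤ (N : ℝ) ^ (1 - C * rate x + ε) := by
  have hx0 : 0 < x := by linarith
  apply spec_gen
  · intro ε hε
    apply num_sub _ (WG_meas H x) _ _ (mul_nonneg H.pos.le (rate_nonneg x hx0.le)) hr _ ε hε
    · intro δ hδ
      exact w_ind H.meas H.indep C H.pos (fun n A => x * (C * Real.log n) ≤ ((A.card : ℕ) : ℝ)) δ hδ
    · intro η hη
      exact g_gt_lo H x hx0 η hη
  · intro ε hε
    exact num_up _ (WG_meas H x) _ ε hε hr (g_gt_up H x hx1 _ (by positivity))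

end Pool.Agent.U746.LD
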