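import Mathlib
import Pool.Agent.U746.LD.Tail

set_option autoImplicit false

/-! # The solutions of `C h(y) = 1` -/

open Filter Topology

namespace Pool.Agent.U746.LD

theorem rate_cont : Continuous rate := by
  unfold rate
  exact (continuous_const.sub continuous_id).add Real.continuous_mul_log

theorem rate_one : rate 1 = 0 := by
  unfold rate
  simp

/-- the tangent -/
theorem rate_tangent (a b : ℝ) (ha : 0 < a) (hb : 0 < b) (hab : a ≠ b) :
    (b - a) * Real.log a < rate b - rate a := by
  unfold rate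
  have h1 : a / b ≠ 1 := by
    intro h
    rw [div_eq_one_iff_eq hb.ne'] at h
    exact hab h
  have h2 := Real.log_lt_sub_one_of_pos (div_pos ha hb) h1
  rw [Real.log_div ha.ne' hb.ne'] at h2
  have h3 : b * (Real.log a - Real.log b) < b * (a / b - 1) := mul_lt_mul_of_pos_left h2 hb
  have h4 : b * (a / b - 1) = a - b := by field_simp
  nlinarith

theorem rate_anti (a b : ℝ) (ha : 0 ≤ a) (hab : a < b) (hb : b ≤ 1) : rate b < rate a := by
  have hb0 : 0 < b := by linarith
  have hlb : Real.log b ≤ 0 := Real.log_nonpos hb0.le hb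
  rcases ha.eq_or_lt with h | h
  · rw [← h, rate_zero]
    unfold rate
    nlinarith
  · have := rate_tangent b a hb0 h hab.ne'
    nlinarith

theorem rate_mono (a b : ℝ) (ha : 1 ≤ a) (hab : a < b) : rate a < rate b := by
  have := rate_tangent a b (by linarith) (by linarith) hab.ne
  have h2 : 0 ≤ Real.log a := Real.log_nonneg ha
  nlinarith

/-- the upper solution -/
theorem exists_u (C : ℝ) (hC : 0 < C) : ∃ u : ℝ, 1 < u ∧ C * rate u = 1 := by
  obtain ⟨M, hM⟩ : ∃ M, M = Real.exp (1 + 1 / C) := ⟨_, rfl⟩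
  have hM1 : 1 < M := by
    rw [hM]
    exact Real.one_lt_exp_iff.2 (by positivity)
  have h1 : 1 ≤ C * rate M := by
    unfold rate
    have h2 : Real.log M = 1 + 1 / C := by rw [hM, Real.log_exp]
    rw [h2]
    have h3 : 1 - M + M * (1 + 1 / C) = 1 + M / C := by ring
    rw [h3, mul_add, mul_div_cancel₀ _ hC.ne']
    linarith
  have hcont : ContinuousOn (fun y => C * rate y) (Set.Icc 1 M) :=
    (continuous_const.mul rate_cont).continuousOn
  have h4 : (1 : ℝ) ∈ Set.Icc (C * rate 1) (C * rate M) := by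
    rw [rate_one, mul_zero]
    exact ⟨zero_le_one, h1⟩
  obtain ⟨u, hu, hu2⟩ := intermediate_value_Icc hM1.le hcont h4
  refine ⟨u, lt_of_le_of_ne hu.1 ?_, hu2⟩
  rintro rfl
  simp only [rate_one, mul_zero] at hu2
  exact zero_ne_one hu2

/-- the lower solution -/
theorem exists_l (C : ℝ) (hC : 1 < C) : ∃ l : ℝ, 0 < l ∧ l < 1 ∧ C * rate l = 1 := by
  have hcont : ContinuousOn (fun y => C * rate y) (Set.Icc 0 1) :=
    (continuous_const.mul rate_cont).continuousOn
  have h4 : (1 : ℝ) ∈ Set.Icc (C * rate 1) (C * rate 0) := by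
    rw [rate_one, mul_zero, rate_zero, mul_one]
    exact ⟨zero_le_one, hC.le⟩
  obtain ⟨l, hl, hl2⟩ := intermediate_value_Icc' zero_le_one hcont h4
  refine ⟨l, lt_of_le_of_ne hl.1 ?_, lt_of_le_of_ne hl.2 ?_, hl2⟩
  · rintro rfl
    simp only [rate_zero, mul_one] at hl2
    linarith
  · rintro rfl
    simp only [rate_one, mul_zero] at hl2
    exact zero_ne_one hl2

end Pool.Agent.U746.LD
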