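import Mathlib
import Pool.Agent.U746.LD.Crit
import Pool.Agent.U746.LD.Sol

set_option autoImplicit false

/-! # From integers to real numbers, and to longer windows -/

open Finset Filter Topology

namespace Pool.Agent.U746.LD

open Pool.Agent.U839.Sv (wn log_sq_small)
open Pool.Agent.U839.Thin (tlog)

/-- the number of the elements of `Q` in `(x, x + h]` -/
noncomputable def cr (Q : Set ℕ) (x h : ℝ) : ℕ := Set.ncard {m : ℕ | m ∈ Q ∧ x < m ∧ (m : ℝ) ≤ x + h}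

/-- the ratio of the number to `h(x) / log x` -/
noncomputable def RR (Q : Set ℕ) (h : ℝ → ℝ) (x : ℝ) : ℝ := Real.log x / h x * (cr Q x (h x) : ℝ)

open Classical in
/-- the number of the elements of `Q` in `(n, e]` -/
noncomputable def sc (Q : Set ℕ) (n e : ℕ) : ℕ := ∑ m ∈ Ioc n e, if m ∈ Q then 1 else 0

theorem cr_eq (Q : Set ℕ) (x h : ℝ) (hx : 0 ≤ x) (hh : 0 ≤ h) : cr Q x h = sc Q ⌊x⌋₊ ⌊x + h⌋₊ := by
  classical
  unfold cr sc
  rw [← card_filter, ← Set.ncard_coe_finset]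
  congr 1
  ext m
  rw [mem_coe, mem_filter, mem_Ioc, Nat.floor_lt hx, Nat.le_floor_iff (by linarith)]
  simp only [Set.mem_setOf_eq]
  tauto

theorem sc_pat {Ω : Type*} (E : ℕ → Set Ω) (ω : Ω) (C : ℝ) (n : ℕ) :
    (pat E (WI C n) ω).card = sc {m | ω ∈ E m} n (n + wn C n) := by
  classical
  unfold pat sc WI
  rw [card_filter]
  simp only [Set.mem_setOf_eq]

theorem sc_add (Q : Set ℕ) (n m e : ℕ) (h1 : n ≤ m) (h2 : m ≤ e) : sc Q n e = sc Q n m + sc Q m e := by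
  classical
  unfold sc
  exact (sum_Ioc_consecutive _ h1 h2).symm

theorem sc_mono (Q : Set ℕ) (n e e' : ℕ) (h : e ≤ e') : sc Q n e ≤ sc Q n e' := by
  classical
  unfold sc
  apply sum_le_sum_of_subset
  intro m hm
  rw [mem_Ioc] at hm ⊢
  omega

theorem sc_le (Q : Set ℕ) (n e : ℕ) : sc Q n e ≤ e - n := by
  classical
  unfold sc
  calc ∑ m ∈ Ioc n e, (if m ∈ Q then 1 else 0) ≤ ∑ m ∈ Ioc n e, 1 := by
        apply sum_le_sum
        intro m _
        split_ifs <;> omega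
    _ = e - n := by simp

/-- real numbers and their integer parts -/
theorem floor_facts : ∀ᶠ x : ℝ in atTop, (⌊x⌋₊ : ℝ) ≤ x ∧ x < ⌊x⌋₊ + 1 ∧
    Real.log ⌊x⌋₊ ≤ Real.log x ∧ Real.log x ≤ Real.log ⌊x⌋₊ + 1 ∧
    Real.log x ≤ Real.log ⌊x⌋₊ + 1 / ⌊x⌋₊ ∧ 1 ≤ ⌊x⌋₊ := by
  filter_upwards [eventually_ge_atTop 1] with x hx
  have h1 := Nat.floor_le (by linarith : 0 ≤ x)
  have h2 := Nat.lt_floor_add_one x
  have h3 : 1 ≤ ⌊x⌋₊ := by rw [Nat.one_le_floor_iff]; exact hx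
  have h4 : (1 : ℝ) ≤ ⌊x⌋₊ := by exact_mod_cast h3
  have h5 : Real.log x ≤ Real.log ⌊x⌋₊ + 1 / ⌊x⌋₊ := by
    have h6 := Real.log_le_sub_one_of_pos (div_pos (by linarith : 0 < x) (by linarith : (0 : ℝ) < ⌊x⌋₊))
    rw [Real.log_div (by linarith) (by linarith)] at h6
    have h7 : x / ⌊x⌋₊ - 1 ≤ 1 / ⌊x⌋₊ := by
      rw [div_sub_one (by linarith)]
      gcongr
      linarith
    linarith
  refine ⟨h1, h2, Real.log_le_log (by linarith) h1, ?_, h5, h3⟩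
  have h6 : (1 : ℝ) / ⌊x⌋₊ ≤ 1 := by
    rw [div_le_one (by linarith)]
    exact h4
  linarith

theorem tfl : Tendsto (fun x : ℝ => ⌊x⌋₊) atTop atTop := tendsto_nat_floor_atTop

theorem low_real (Q : Set ℕ) (C y y' : ℝ) (hC : 0 < C) (hy : 0 ≤ y) (hyy : y < y')
    (h : ∀ᶠ n : ℕ in atTop, y' * (C * Real.log n) < (sc Q n (n + wn C n) : ℝ)) :
    ∀ᶠ x : ℝ in atTop, y < RR Q (fun x => C * (Real.log x) ^ 2) x := by
  filter_upwards [floor_facts, tfl.eventually h, tfl.eventually (tlog.eventually_ge_atTop 1),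
    tfl.eventually (tlog.eventually_ge_atTop (y / (y' - y)))] with x g1 g2 g3 g4
  obtain ⟨k1, k2, k3, k4, -, k6⟩ := g1
  obtain ⟨n, hn⟩ : ∃ n, n = ⌊x⌋₊ := ⟨_, rfl⟩
  rw [← hn] at k1 k2 k3 k4 k6 g2 g3 g4
  have hn1 : (1 : ℝ) ≤ n := by exact_mod_cast k6
  have hlx : 0 < Real.log x := by linarith
  have h1 : sc Q n (n + wn C n) ≤ cr Q x (C * (Real.log x) ^ 2) := by
    rw [cr_eq Q x _ (by linarith) (by positivity), ← hn]
    apply sc_mono
    apply Nat.le_floor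
    push_cast
    have h2 : (wn C n : ℝ) ≤ C * (Real.log n) ^ 2 := Nat.floor_le (by positivity)
    have h3 : C * (Real.log n) ^ 2 ≤ C * (Real.log x) ^ 2 := by gcongr
    linarith
  have h1' : (sc Q n (n + wn C n) : ℝ) ≤ cr Q x (C * (Real.log x) ^ 2) := by exact_mod_cast h1
  unfold RR
  have h5 : Real.log x / (C * (Real.log x) ^ 2) * (cr Q x (C * (Real.log x) ^ 2) : ℝ) =
      (cr Q x (C * (Real.log x) ^ 2) : ℝ) / (C * Real.log x) := by
    field_simp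
  simp only [h5]
  rw [lt_div_iff₀ (by positivity)]
  rw [div_le_iff₀ (by linarith)] at g4
  have h6 : y * (C * Real.log x) ≤ y * (C * (Real.log n + 1)) := by gcongr
  have h7 : C * y ≤ C * (Real.log n * (y' - y)) := by gcongr
  nlinarith

theorem up_real (Q : Set ℕ) (C y y' : ℝ) (hC : 0 < C) (hy' : 0 < y') (hyy : y' < y)
    (h : ∀ᶠ n : ℕ in atTop, (sc Q n (n + wn C n) : ℝ) < y' * (C * Real.log n)) :
    ∀ᶠ x : ℝ in atTop, RR Q (fun x => C * (Real.log x) ^ 2) x < y := by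
  filter_upwards [floor_facts, tfl.eventually h, tfl.eventually (tlog.eventually_ge_atTop 1),
    tfl.eventually (tlog.eventually_ge_atTop (4 / (C * (y - y')))),
    tfl.eventually (log_sq_small (4 * C + 4) 1 (by positivity) one_pos)] with x g1 g2 g3 g4 g5
  obtain ⟨k1, k2, k3, k4, k5, k6⟩ := g1
  obtain ⟨n, hn⟩ : ∃ n, n = ⌊x⌋₊ := ⟨_, rfl⟩
  rw [← hn] at k1 k2 k3 k4 k5 k6 g2 g3 g4 g5
  have hn1 : (1 : ℝ) ≤ n := by exact_mod_cast k6
  have hn0 : (0 : ℝ) < n := by linarith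
  have hlx : 0 < Real.log x := by linarith
  rw [Real.rpow_one] at g5
  have hsq : C * (Real.log x) ^ 2 ≤ C * (Real.log n) ^ 2 + 1 := by
    have h1 : (Real.log x) ^ 2 ≤ (Real.log n + 1 / n) ^ 2 := pow_le_pow_left₀ hlx.le k5 2
    have h2 : (Real.log n + 1 / n) ^ 2 = (Real.log n) ^ 2 + (2 * Real.log n + 1 / n) / n := by
      field_simp
      ring
    have h3 : C * ((2 * Real.log n + 1 / n) / n) ≤ 1 := by
      rw [mul_div_assoc', div_le_one hn0]
      have h4 : (1 : ℝ) / n ≤ 1 := by rw [div_le_one hn0]; exact hn1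
      have h5 : C * (2 * Real.log n + 1 / n) ≤ C * (2 * Real.log n + 1) := by gcongr
      have h6 : Real.log n ≤ (Real.log n) ^ 2 := by nlinarith
      nlinarith
    rw [h2] at h1
    nlinarith
  have h1 : cr Q x (C * (Real.log x) ^ 2) ≤ sc Q n (n + wn C n) + 4 := by
    rw [cr_eq Q x _ (by linarith) (by positivity), ← hn]
    have h2 : ⌊x + C * (Real.log x) ^ 2⌋₊ ≤ n + wn C n + 4 := by
      have h3 : C * (Real.log n) ^ 2 < (wn C n : ℝ) + 1 := Nat.lt_floor_add_one _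
      have h4 : (⌊x + C * (Real.log x) ^ 2⌋₊ : ℝ) ≤ x + C * (Real.log x) ^ 2 :=
        Nat.floor_le (add_nonneg (by linarith) (by positivity))
      have h5 : (⌊x + C * (Real.log x) ^ 2⌋₊ : ℝ) ≤ ((n + wn C n + 4 : ℕ) : ℝ) := by
        push_cast
        linarith
      exact_mod_cast h5
    calc sc Q n ⌊x + C * (Real.log x) ^ 2⌋₊ ≤ sc Q n (n + wn C n + 4) := sc_mono Q _ _ _ h2
      _ = sc Q n (n + wn C n) + sc Q (n + wn C n) (n + wn C n + 4) := sc_add Q _ _ _ (by omega) (by omega)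
      _ ≤ _ := by
        have := sc_le Q (n + wn C n) (n + wn C n + 4)
        omega
  have h1' : (cr Q x (C * (Real.log x) ^ 2) : ℝ) ≤ sc Q n (n + wn C n) + 4 := by exact_mod_cast h1
  unfold RR
  have h5 : Real.log x / (C * (Real.log x) ^ 2) * (cr Q x (C * (Real.log x) ^ 2) : ℝ) =
      (cr Q x (C * (Real.log x) ^ 2) : ℝ) / (C * Real.log x) := by
    field_simp
  simp only [h5]
  rw [div_lt_iff₀ (by positivity)]
  have h9 : 0 < C * (y - y') := mul_pos hC (by linarith)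
  rw [div_le_iff₀ h9] at g4
  have h6 : y * (C * Real.log n) ≤ y * (C * Real.log x) := by
    have : 0 < y := by linarith
    gcongr
  nlinarith

theorem cr_nat (Q : Set ℕ) (C : ℝ) (hC : 0 < C) (n : ℕ) :
    cr Q n (C * (Real.log n) ^ 2) = sc Q n (n + wn C n) := by
  rw [cr_eq Q n _ (Nat.cast_nonneg n) (by positivity), Nat.floor_natCast, add_comm (n : ℝ),
    Nat.floor_add_natCast (by positivity), add_comm _ n]
  rfl

theorem RR_nat (Q : Set ℕ) (C : ℝ) (hC : 0 < C) (n : ℕ) (hn : 0 < Real.log n) :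
    RR Q (fun x => C * (Real.log x) ^ 2) n = (sc Q n (n + wn C n) : ℝ) / (C * Real.log n) := by
  unfold RR
  rw [cr_nat Q C hC n]
  field_simp

theorem freq_le (Q : Set ℕ) (C y : ℝ) (hC : 0 < C)
    (h : ∃ᶠ n : ℕ in atTop, (sc Q n (n + wn C n) : ℝ) ≤ y * (C * Real.log n)) :
    ∃ᶠ x : ℝ in atTop, RR Q (fun x => C * (Real.log x) ^ 2) x ≤ y := by
  apply tendsto_natCast_atTop_atTop.frequently
  refine (h.and_eventually (tlog.eventually_gt_atTop 0)).mono ?_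
  rintro n ⟨h1, h2⟩
  rw [RR_nat Q C hC n h2, div_le_iff₀ (by positivity)]
  exact h1

theorem freq_ge (Q : Set ℕ) (C y : ℝ) (hC : 0 < C)
    (h : ∃ᶠ n : ℕ in atTop, y * (C * Real.log n) ≤ (sc Q n (n + wn C n) : ℝ)) :
    ∃ᶠ x : ℝ in atTop, y ≤ RR Q (fun x => C * (Real.log x) ^ 2) x := by
  apply tendsto_natCast_atTop_atTop.frequently
  refine (h.and_eventually (tlog.eventually_gt_atTop 0)).mono ?_
  rintro n ⟨h1, h2⟩
  rw [RR_nat Q C hC n h2, le_div_iff₀ (by positivity)]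
  exact h1

/-! ## Longer windows -/

theorem tile_low (Q : Set ℕ) (w : ℕ → ℕ) (N B : ℕ) (W α : ℝ) (hα : 0 ≤ α)
    (hw1 : ∀ n, N ≤ n → n ≤ B → 1 ≤ w n ∧ (w n : ℝ) ≤ W)
    (hw2 : ∀ n, N ≤ n → n ≤ B → α * w n ≤ (sc Q n (n + w n) : ℝ)) :
    ∀ k n e : ℕ, e - n ≤ k → N ≤ n → n ≤ e → e ≤ B → α * ((e : ℝ) - n - W) ≤ (sc Q n e : ℝ) := by
  intro k
  induction k with
  | zero =>
    intro n e h1 h2 h3 h4
    have : e = n := by omega
    subst this
    obtain ⟨h5, h6⟩ := hw1 e h2 h4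
    have h7 : (0 : ℝ) ≤ w e := Nat.cast_nonneg _
    have h8 : (0 : ℝ) ≤ (sc Q e e : ℝ) := Nat.cast_nonneg _
    nlinarith
  | succ k ih =>
    intro n e h1 h2 h3 h4
    obtain ⟨h5, h6⟩ := hw1 n h2 (by omega)
    rcases Nat.lt_or_ge e (n + w n) with h | h
    · have h7 : (e : ℝ) ≤ n + w n := by exact_mod_cast h.le
      have h8 : (0 : ℝ) ≤ (sc Q n e : ℝ) := Nat.cast_nonneg _
      nlinarith
    · have h7 := ih (n + w n) e (by omega) (by omega) h h4
      have h8 := hw2 n h2 (by omega)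
      rw [sc_add Q n (n + w n) e (by omega) h]
      push_cast at h7 ⊢
      nlinarith

theorem tile_up (Q : Set ℕ) (w : ℕ → ℕ) (N B : ℕ) (W β : ℝ) (hβ : 0 ≤ β)
    (hw1 : ∀ n, N ≤ n → n ≤ B → 1 ≤ w n ∧ (w n : ℝ) ≤ W)
    (hw2 : ∀ n, N ≤ n → n ≤ B → (sc Q n (n + w n) : ℝ) ≤ β * w n) :
    ∀ k n e : ℕ, e - n ≤ k → N ≤ n → n ≤ e → e ≤ B → (sc Q n e : ℝ) ≤ β * ((e : ℝ) - n + W) := by
  intro k
  induction k with
  | zero =>
    intro n e h1 h2 h3 h4
    have : e = n := by omega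
    subst this
    obtain ⟨h5, h6⟩ := hw1 e h2 h4
    have h7 : (0 : ℝ) ≤ w e := Nat.cast_nonneg _
    have h8 : sc Q e e = 0 := by
      have := sc_le Q e e
      omega
    rw [h8]
    push_cast
    nlinarith
  | succ k ih =>
    intro n e h1 h2 h3 h4
    obtain ⟨h5, h6⟩ := hw1 n h2 (by omega)
    rcases Nat.lt_or_ge e (n + w n) with h | h
    · have h7 := sc_mono Q n e (n + w n) h.le
      have h8 := hw2 n h2 (by omega)
      have h9 : (sc Q n e : ℝ) ≤ sc Q n (n + w n) := by exact_mod_cast h7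
      have h10 : (n : ℝ) ≤ e := by exact_mod_cast h3
      nlinarith
    · have h7 := ih (n + w n) e (by omega) (by omega) h h4
      have h8 := hw2 n h2 (by omega)
      rw [sc_add Q n (n + w n) e (by omega) h]
      push_cast at h7 ⊢
      nlinarith

theorem lim_key (Q : Set ℕ) (ε : ℝ) (hε : 0 < ε) (hε1 : ε < 1) (K : ℝ) (hK : 0 < K)
    (hQ : ∀ᶠ n : ℕ in atTop, (1 - ε) * (K * Real.log n) ≤ (sc Q n (n + wn K n) : ℝ) ∧
      (sc Q n (n + wn K n) : ℝ) ≤ (1 + ε) * (K * Real.log n))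
    (h : ℝ → ℝ) (h1 : ∀ M : ℝ, ∀ᶠ x : ℝ in atTop, M * (Real.log x) ^ 2 ≤ h x)
    (h2 : ∀ δ : ℝ, 0 < δ → ∀ᶠ x : ℝ in atTop, h x ≤ δ * x) :
    ∀ᶠ x : ℝ in atTop, (1 - ε) ^ 3 ≤ RR Q h x ∧ RR Q h x ≤ (1 + ε) ^ 3 / (1 - ε) := by
  obtain ⟨N₀, hN₀⟩ := eventually_atTop.1 hQ
  filter_upwards [floor_facts, h1 ((4 * K + 1) / ε), h2 (1 / 4) (by norm_num),
    tfl.eventually (tlog.eventually_ge_atTop (1 / ε)), tfl.eventually (tlog.eventually_ge_atTop 1),
    tfl.eventually (tlog.eventually_ge_atTop (1 / (ε * K))), tfl.eventually (eventually_ge_atTop (N₀ + 2))]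
    with x g1 g2 g3 g4 g5 g6 g7
  obtain ⟨k1, k2, k3, k4, -, k6⟩ := g1
  obtain ⟨n, hn⟩ : ∃ n, n = ⌊x⌋₊ := ⟨_, rfl⟩
  rw [← hn] at k1 k2 k3 k4 k6 g4 g5 g6 g7
  have hn2 : (2 : ℝ) ≤ n := by exact_mod_cast (by omega : 2 ≤ n)
  have hn0 : (0 : ℝ) < n := by linarith
  have hlx : 0 < Real.log x := by linarith
  rw [div_le_iff₀ hε] at g4
  rw [div_le_iff₀ (by positivity)] at g6
  obtain ⟨Λ, hΛ⟩ : ∃ Λ, Λ = Real.log n + 1 := ⟨_, rfl⟩
  obtain ⟨W, hW⟩ : ∃ W, W = K * Λ ^ 2 := ⟨_, rfl⟩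
  have hΛ0 : 0 < Λ := by rw [hΛ]; linarith
  have hhW : 1 + W ≤ ε * h x := by
    have e1 : (4 * K + 1) / ε * (Real.log x) ^ 2 * ε ≤ h x * ε := by gcongr
    have e2 : (4 * K + 1) / ε * (Real.log x) ^ 2 * ε = (4 * K + 1) * (Real.log x) ^ 2 := by field_simp
    rw [e2] at e1
    have e3 : Λ ^ 2 ≤ (2 * Real.log x) ^ 2 := pow_le_pow_left₀ hΛ0.le (by rw [hΛ]; linarith) 2
    have e4 : K * Λ ^ 2 ≤ K * (2 * Real.log x) ^ 2 := by gcongr
    have e5 : (1 : ℝ) ≤ (Real.log x) ^ 2 := one_le_pow₀ (by linarith)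
    rw [hW]
    nlinarith
  have hW0 : 0 ≤ W := by rw [hW]; positivity
  have hh0 : 0 < h x := by
    by_contra hcon
    push Not at hcon
    nlinarith
  obtain ⟨e, he⟩ : ∃ e, e = ⌊x + h x⌋₊ := ⟨_, rfl⟩
  have hcr : cr Q x (h x) = sc Q n e := by rw [cr_eq Q x _ (by linarith) hh0.le, ← hn, ← he]
  have he1 : (e : ℝ) ≤ x + h x := by rw [he]; exact Nat.floor_le (by linarith)
  have he2 : x + h x < e + 1 := by rw [he]; exact Nat.lt_floor_add_one _
  have hne : n ≤ e := by rw [hn, he]; exact Nat.floor_le_floor (by linarith)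
  have heB : e ≤ 2 * n := by
    have : (e : ℝ) < ((2 * n + 1 : ℕ) : ℝ) := by
      push_cast
      nlinarith
    have h3 : e < 2 * n + 1 := by exact_mod_cast this
    omega
  -- the integers between `n` and `2 n`
  have hm : ∀ m, n ≤ m → m ≤ 2 * n → Real.log n ≤ Real.log m ∧ Real.log m ≤ Λ ∧
      (wn K m : ℝ) ≤ K * (Real.log m) ^ 2 ∧ K * (Real.log m) ^ 2 < wn K m + 1 ∧
      1 ≤ ε * (K * (Real.log m) ^ 2) := by
    intro m hm1 hm2
    have e1 : (n : ℝ) ≤ m := by exact_mod_cast hm1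
    have e2 : (m : ℝ) ≤ 2 * n := by exact_mod_cast hm2
    have e3 := Real.log_le_log hn0 e1
    have e4 := Real.log_le_log (by linarith : (0 : ℝ) < m) e2
    rw [Real.log_mul (by norm_num) hn0.ne'] at e4
    have e5 := Real.log_two_lt_d9
    refine ⟨e3, by rw [hΛ]; linarith, Nat.floor_le (by positivity), Nat.lt_floor_add_one _, ?_⟩
    have e6 : Real.log n ≤ (Real.log m) ^ 2 := by nlinarith
    have e7 : ε * K * Real.log n ≤ ε * K * (Real.log m) ^ 2 := by gcongr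
    nlinarith
  have hw1 : ∀ m, n ≤ m → m ≤ 2 * n → 1 ≤ wn K m ∧ (wn K m : ℝ) ≤ W := by
    intro m hm1 hm2
    obtain ⟨e1, e2, e3, e4, e5⟩ := hm m hm1 hm2
    constructor
    · have e6 : (0 : ℝ) < wn K m := by
        have : 1 ≤ K * (Real.log m) ^ 2 := by
          have e7 : 0 ≤ K * (Real.log m) ^ 2 := by positivity
          nlinarith
        linarith
      exact_mod_cast e6
    · refine e3.trans ?_
      rw [hW]
      have : 0 ≤ Real.log m := Real.log_natCast_nonneg m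
      gcongr
  obtain ⟨α, hα⟩ : ∃ α, α = (1 - ε) / Λ := ⟨_, rfl⟩
  obtain ⟨β, hβ⟩ : ∃ β, β = (1 + ε) / ((1 - ε) * Real.log n) := ⟨_, rfl⟩
  have hln : 0 < Real.log n := by linarith
  have h1ε : 0 < 1 - ε := by linarith
  have hα0 : 0 ≤ α := by rw [hα]; positivity
  have hβ0 : 0 ≤ β := by rw [hβ]; positivity
  have hlow := tile_low Q (wn K) n (2 * n) W α hα0 hw1 (by
    intro m hm1 hm2
    obtain ⟨e1, e2, e3, e4, e5⟩ := hm m hm1 hm2
    refine le_trans ?_ (hN₀ m (by omega)).1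
    rw [hα, div_mul_eq_mul_div, div_le_iff₀ hΛ0]
    have e6 : (wn K m : ℝ) ≤ K * Real.log m * Λ := by
      refine e3.trans ?_
      have : K * Real.log m * Real.log m ≤ K * Real.log m * Λ :=
        mul_le_mul_of_nonneg_left e2 (by positivity)
      nlinarith
    calc (1 - ε) * (wn K m : ℝ) ≤ (1 - ε) * (K * Real.log m * Λ) := by gcongr
      _ = _ := by ring) (e - n) n e le_rfl le_rfl hne heB
  have hup := tile_up Q (wn K) n (2 * n) W β hβ0 hw1 (by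
    intro m hm1 hm2
    obtain ⟨e1, e2, e3, e4, e5⟩ := hm m hm1 hm2
    refine (hN₀ m (by omega)).2.trans ?_
    rw [hβ, div_mul_eq_mul_div, le_div_iff₀ (by positivity)]
    have e6 : (1 - ε) * (K * (Real.log m) ^ 2) ≤ wn K m := by nlinarith
    have e7 : K * Real.log m * Real.log n ≤ K * (Real.log m) ^ 2 := by
      have : K * Real.log m * Real.log n ≤ K * Real.log m * Real.log m :=
        mul_le_mul_of_nonneg_left e1 (by positivity)
      nlinarith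
    calc (1 + ε) * (K * Real.log m) * ((1 - ε) * Real.log n)
        = (1 + ε) * ((1 - ε) * (K * Real.log m * Real.log n)) := by ring
      _ ≤ (1 + ε) * ((1 - ε) * (K * (Real.log m) ^ 2)) := by gcongr
      _ ≤ (1 + ε) * wn K m := by gcongr) (e - n) n e le_rfl le_rfl hne heB
  unfold RR
  rw [hcr]
  constructor
  · have e1 : α * ((1 - ε) * h x) ≤ (sc Q n e : ℝ) := by
      refine le_trans (mul_le_mul_of_nonneg_left ?_ hα0) hlow
      nlinarith
    have e2 : (1 - ε) ≤ Real.log x / Λ := by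
      rw [le_div_iff₀ hΛ0, hΛ]
      nlinarith
    calc (1 - ε) ^ 3 = (1 - ε) * ((1 - ε) * (1 - ε)) := by ring
      _ ≤ Real.log x / Λ * ((1 - ε) * (1 - ε)) := by gcongr
      _ = Real.log x / h x * (α * ((1 - ε) * h x)) := by
          rw [hα]
          field_simp
      _ ≤ _ := by gcongr
  · have e1 : (sc Q n e : ℝ) ≤ β * ((1 + ε) * h x) := by
      refine hup.trans (mul_le_mul_of_nonneg_left ?_ hβ0)
      nlinarith
    have e2 : Real.log x / Real.log n ≤ 1 + ε := by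
      rw [div_le_iff₀ hln]
      nlinarith
    calc Real.log x / h x * (sc Q n e : ℝ) ≤ Real.log x / h x * (β * ((1 + ε) * h x)) := by gcongr
      _ = Real.log x / Real.log n * ((1 + ε) * (1 + ε) / (1 - ε)) := by
          rw [hβ]
          field_simp
      _ ≤ (1 + ε) * ((1 + ε) * (1 + ε) / (1 - ε)) := by gcongr
      _ = _ := by ring

theorem lim_one (Q : Set ℕ) (hQ : ∀ ε : ℝ, 0 < ε → ε < 1 → ∃ K : ℝ, 0 < K ∧
      ∀ᶠ n : ℕ in atTop, (1 - ε) * (K * Real.log n) ≤ (sc Q n (n + wn K n) : ℝ) ∧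
      (sc Q n (n + wn K n) : ℝ) ≤ (1 + ε) * (K * Real.log n))
    (h : ℝ → ℝ) (h1 : ∀ M : ℝ, ∀ᶠ x : ℝ in atTop, M * (Real.log x) ^ 2 ≤ h x)
    (h2 : ∀ δ : ℝ, 0 < δ → ∀ᶠ x : ℝ in atTop, h x ≤ δ * x) : Tendsto (RR Q h) atTop (𝓝 1) := by
  have hε : ∀ᶠ ε : ℝ in 𝓝[>] 0, ε ∈ Set.Ioo (0 : ℝ) 1 := Ioo_mem_nhdsGT one_pos
  rw [tendsto_order]
  constructor
  · intro a ha
    have hc : Tendsto (fun ε : ℝ => (1 - ε) ^ 3) (𝓝[>] 0) (𝓝 1) := by
      have h3 : ContinuousAt (fun ε : ℝ => (1 - ε) ^ 3) 0 := by fun_prop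
      have h4 := h3.tendsto.mono_left (nhdsWithin_le_nhds (s := Set.Ioi 0))
      simpa using h4
    obtain ⟨ε, g1, g2⟩ := ((hc.eventually (lt_mem_nhds ha)).and hε).exists
    obtain ⟨K, hK, hK2⟩ := hQ ε g2.1 g2.2
    filter_upwards [lim_key Q ε g2.1 g2.2 K hK hK2 h h1 h2] with x hx
    exact lt_of_lt_of_le g1 hx.1
  · intro b hb
    have hc : Tendsto (fun ε : ℝ => (1 + ε) ^ 3 / (1 - ε)) (𝓝[>] 0) (𝓝 1) := by
      have h3 : ContinuousAt (fun ε : ℝ => (1 + ε) ^ 3 / (1 - ε)) 0 := by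
        apply ContinuousAt.div
        · fun_prop
        · fun_prop
        · norm_num
      have h4 := h3.tendsto.mono_left (nhdsWithin_le_nhds (s := Set.Ioi 0))
      simpa using h4
    obtain ⟨ε, g1, g2⟩ := ((hc.eventually (gt_mem_nhds hb)).and hε).exists
    obtain ⟨K, hK, hK2⟩ := hQ ε g2.1 g2.2
    filter_upwards [lim_key Q ε g2.1 g2.2 K hK hK2 h h1 h2] with x hx
    exact lt_of_le_of_lt hx.2 g1

end Pool.Agent.U746.LD
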