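import Mathlib
import Pool.Agent.U746.LD.Det

set_option autoImplicit false

/-! # Lower and upper limits at the critical scale -/

open Finset Filter Topology MeasureTheory ProbabilityTheory

namespace Pool.Agent.U746.LD

open Pool.Agent.U839.Sv (fT wn)
open Pool.Agent.U839.Thin (tlog)

/-- lower limit -/
noncomputable def LL (Q : Set ℕ) (h : ℝ → ℝ) : EReal := liminf (fun x : ℝ => (RR Q h x : EReal)) atTop

/-- upper limit -/
noncomputable def UU (Q : Set ℕ) (h : ℝ → ℝ) : EReal := limsup (fun x : ℝ => (RR Q h x : EReal)) atTop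

theorem UU_le {Q : Set ℕ} {h : ℝ → ℝ} {c : ℝ} (H : ∀ c', c < c' → ∀ᶠ x in atTop, RR Q h x ≤ c') :
    UU Q h ≤ c := by
  refine le_of_forall_gt_imp_ge_of_dense ?_
  intro b hb
  obtain ⟨r, hr1, hr2⟩ := EReal.lt_iff_exists_real_btwn.1 hb
  refine (limsup_le_of_le (h := ?_)).trans hr2.le
  filter_upwards [H r (by exact_mod_cast hr1)] with x hx
  exact_mod_cast hx

theorem le_LL {Q : Set ℕ} {h : ℝ → ℝ} {c : ℝ} (H : ∀ c', c' < c → ∀ᶠ x in atTop, c' ≤ RR Q h x) :
    (c : EReal) ≤ LL Q h := by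
  refine le_of_forall_lt_imp_le_of_dense ?_
  intro b hb
  obtain ⟨r, hr1, hr2⟩ := EReal.lt_iff_exists_real_btwn.1 hb
  refine hr1.le.trans (le_liminf_of_le (h := ?_))
  filter_upwards [H r (by exact_mod_cast hr2)] with x hx
  exact_mod_cast hx

theorem le_UU {Q : Set ℕ} {h : ℝ → ℝ} {c : ℝ} (H : ∀ c', c' < c → ∃ᶠ x in atTop, c' ≤ RR Q h x) :
    (c : EReal) ≤ UU Q h := by
  refine le_of_forall_lt_imp_le_of_dense ?_
  intro b hb
  obtain ⟨r, hr1, hr2⟩ := EReal.lt_iff_exists_real_btwn.1 hb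
  refine hr1.le.trans ?_
  exact le_limsup_of_frequently_le ((H r (by exact_mod_cast hr2)).mono fun x hx => by exact_mod_cast hx)

theorem LL_le {Q : Set ℕ} {h : ℝ → ℝ} {c : ℝ} (H : ∀ c', c < c' → ∃ᶠ x in atTop, RR Q h x ≤ c') :
    LL Q h ≤ c := by
  refine le_of_forall_gt_imp_ge_of_dense ?_
  intro b hb
  obtain ⟨r, hr1, hr2⟩ := EReal.lt_iff_exists_real_btwn.1 hb
  refine le_trans ?_ hr2.le
  exact liminf_le_of_frequently_le ((H r (by exact_mod_cast hr1)).mono fun x hx => by exact_mod_cast hx)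

theorem of_lim {Q : Set ℕ} {h : ℝ → ℝ} (H : Tendsto (RR Q h) atTop (𝓝 1)) : LL Q h = 1 ∧ UU Q h = 1 := by
  have h1 : Tendsto (fun x : ℝ => (RR Q h x : EReal)) atTop (𝓝 ((1 : ℝ) : EReal)) :=
    (continuous_coe_real_ereal.tendsto 1).comp H
  exact ⟨h1.liminf_eq, h1.limsup_eq⟩

variable {Ω : Type*} [MeasurableSpace Ω] {μ : Measure Ω} [IsProbabilityMeasure μ]

theorem win {E : ℕ → Set Ω} (hm : ∀ n, MeasurableSet (E n)) (hE : iIndepSet E μ) {T : ℕ → ℕ}
    (hT : Monotone T) (hTs : ∀ θ : ℝ, 0 < θ → ∀ᶠ n : ℕ in atTop, (T n : ℝ) ≤ (Real.log n) ^ θ)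
    (hq : ∀ m : ℕ, μ.real (E m) = min 1 (fT T m / Real.log m)) {C : ℝ} (hC : 0 < C) :
    Win μ E (WI C) C where
  meas := hm
  indep := hE
  mean := wmean _ T hT hTs hq C hC
  pos := hC

theorem lt_nev {E : ℕ → Set Ω} {C : ℝ} (H : Win μ E (WI C) C) (y : ℝ) (hy0 : 0 ≤ y) (hy1 : y < 1)
    (hr : 1 < C * rate y) : ∀ᵐ ω ∂μ, ∀ᶠ n : ℕ in atTop,
      y * (C * Real.log n) < (sc {m | ω ∈ E m} n (n + wn C n) : ℝ) := by
  filter_upwards [g_lt_never H y hy0 hy1 hr] with ω hω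
  filter_upwards [hω] with n hn
  unfold WL at hn
  rw [Set.mem_setOf_eq, not_le] at hn
  rw [← sc_pat]
  exact hn

theorem gt_nev {E : ℕ → Set Ω} {C : ℝ} (H : Win μ E (WI C) C) (y : ℝ) (hy1 : 1 < y)
    (hr : 1 < C * rate y) : ∀ᵐ ω ∂μ, ∀ᶠ n : ℕ in atTop,
      (sc {m | ω ∈ E m} n (n + wn C n) : ℝ) < y * (C * Real.log n) := by
  filter_upwards [g_gt_never H y hy1 hr] with ω hω
  filter_upwards [hω] with n hn
  unfold WG at hn
  rw [Set.mem_setOf_eq, not_le] at hn
  rw [← sc_pat]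
  exact hn

theorem lt_io {E : ℕ → Set Ω} {C : ℝ} (H : Win μ E (WI C) C) (y : ℝ) (hy0 : 0 ≤ y) (hy1 : y < 1)
    (hr : C * rate y < 1) : ∀ᵐ ω ∂μ, ∃ᶠ n : ℕ in atTop,
      (sc {m | ω ∈ E m} n (n + wn C n) : ℝ) ≤ y * (C * Real.log n) := by
  filter_upwards [w_lt_num H y hy0 hy1 hr] with ω hω
  have h1 := io_of_num (WL E (WI C) C y) ω ((1 - C * rate y) / 2) (by linarith) (by
    filter_upwards [hω ((1 - C * rate y) / 2) (by linarith)] with N hN
    refine le_trans (le_of_eq ?_) hN.1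
    congr 1
    ring)
  refine h1.mono fun n hn => ?_
  unfold WL at hn
  rw [Set.mem_setOf_eq] at hn
  rw [← sc_pat]
  exact hn

theorem gt_io {E : ℕ → Set Ω} {C : ℝ} (H : Win μ E (WI C) C) (y : ℝ) (hy1 : 1 < y)
    (hr : C * rate y < 1) : ∀ᵐ ω ∂μ, ∃ᶠ n : ℕ in atTop,
      y * (C * Real.log n) ≤ (sc {m | ω ∈ E m} n (n + wn C n) : ℝ) := by
  filter_upwards [w_gt_num H y hy1 hr] with ω hω
  have h1 := io_of_num (WG E (WI C) C y) ω ((1 - C * rate y) / 2) (by linarith) (by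
    filter_upwards [hω ((1 - C * rate y) / 2) (by linarith)] with N hN
    refine le_trans (le_of_eq ?_) hN.1
    congr 1
    ring)
  refine h1.mono fun n hn => ?_
  unfold WG at hn
  rw [Set.mem_setOf_eq] at hn
  rw [← sc_pat]
  exact hn

/-- the upper limit at the critical scale -/
theorem UU_crit {E : ℕ → Set Ω} {C : ℝ} (H : Win μ E (WI C) C) (u : ℝ) (hu : 1 < u) (hCu : C * rate u = 1) :
    ∀ᵐ ω ∂μ, UU {m | ω ∈ E m} (fun x => C * (Real.log x) ^ 2) = u := by
  have hC := H.pos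
  have h1 : ∀ᵐ ω ∂μ, ∀ q : ℚ, u < q → ∀ᶠ n : ℕ in atTop,
      (sc {m | ω ∈ E m} n (n + wn C n) : ℝ) < q * (C * Real.log n) := by
    rw [ae_all_iff]
    intro q
    by_cases hq : u < q
    · have h2 : C * rate u < C * rate q := mul_lt_mul_of_pos_left (rate_mono u q hu.le hq) hC
      filter_upwards [gt_nev H q (by linarith) (by linarith)] with ω hω _
      exact hω
    · exact Eventually.of_forall fun ω h => absurd h hq
  have h2 : ∀ᵐ ω ∂μ, ∀ q : ℚ, 1 < (q : ℝ) → (q : ℝ) < u → ∃ᶠ n : ℕ in atTop,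
      (q : ℝ) * (C * Real.log n) ≤ (sc {m | ω ∈ E m} n (n + wn C n) : ℝ) := by
    rw [ae_all_iff]
    intro q
    by_cases hq : 1 < (q : ℝ)
    · by_cases hq2 : (q : ℝ) < u
      · have h2 : C * rate q < C * rate u := mul_lt_mul_of_pos_left (rate_mono q u hq.le hq2) hC
        filter_upwards [gt_io H q hq (by linarith)] with ω hω _ _
        exact hω
      · exact Eventually.of_forall fun ω _ h => absurd h hq2
    · exact Eventually.of_forall fun ω h => absurd h hq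
  filter_upwards [h1, h2] with ω g1 g2
  apply le_antisymm
  · apply UU_le
    intro c hc
    obtain ⟨q, hq1, hq2⟩ := exists_rat_btwn hc
    filter_upwards [up_real _ C c q hC (by linarith) hq2 (g1 q hq1)] with x hx
    exact hx.le
  · apply le_UU
    intro c hc
    obtain ⟨q, hq1, hq2⟩ := exists_rat_btwn (max_lt hc hu)
    have h3 := freq_ge _ C q hC (g2 q (lt_of_le_of_lt (le_max_right _ _) hq1) hq2)
    refine h3.mono fun x hx => le_trans ?_ hx
    exact (le_max_left _ _).trans hq1.le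

/-- the lower limit at the critical scale -/
theorem LL_crit {E : ℕ → Set Ω} {C : ℝ} (H : Win μ E (WI C) C) (l : ℝ) (hl0 : 0 ≤ l) (hl1 : l < 1)
    (h1l : ∀ y : ℝ, l < y → y < 1 → C * rate y < 1) (h2l : ∀ y : ℝ, 0 ≤ y → y < l → 1 < C * rate y) :
    ∀ᵐ ω ∂μ, LL {m | ω ∈ E m} (fun x => C * (Real.log x) ^ 2) = l := by
  have hC := H.pos
  have h1 : ∀ᵐ ω ∂μ, ∀ q : ℚ, 0 ≤ (q : ℝ) → (q : ℝ) < l → ∀ᶠ n : ℕ in atTop,
      q * (C * Real.log n) < (sc {m | ω ∈ E m} n (n + wn C n) : ℝ) := by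
    rw [ae_all_iff]
    intro q
    by_cases hq : 0 ≤ (q : ℝ)
    · by_cases hq2 : (q : ℝ) < l
      · filter_upwards [lt_nev H q hq (by linarith) (h2l q hq hq2)] with ω hω _ _
        exact hω
      · exact Eventually.of_forall fun ω _ h => absurd h hq2
    · exact Eventually.of_forall fun ω h => absurd h hq
  have h2 : ∀ᵐ ω ∂μ, ∀ q : ℚ, l < (q : ℝ) → (q : ℝ) < 1 → ∃ᶠ n : ℕ in atTop,
      (sc {m | ω ∈ E m} n (n + wn C n) : ℝ) ≤ (q : ℝ) * (C * Real.log n) := by
    rw [ae_all_iff]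
    intro q
    by_cases hq : l < (q : ℝ)
    · by_cases hq2 : (q : ℝ) < 1
      · filter_upwards [lt_io H q (by linarith) hq2 (h1l q hq hq2)] with ω hω _ _
        exact hω
      · exact Eventually.of_forall fun ω _ h => absurd h hq2
    · exact Eventually.of_forall fun ω h => absurd h hq
  filter_upwards [h1, h2] with ω g1 g2
  apply le_antisymm
  · apply LL_le
    intro c hc
    obtain ⟨q, hq1, hq2⟩ := exists_rat_btwn (lt_min hc hl1)
    have h3 := freq_le _ C q hC (g2 q hq1 (lt_of_lt_of_le hq2 (min_le_right _ _)))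
    refine h3.mono fun x hx => hx.trans ?_
    exact hq2.le.trans (min_le_left _ _)
  · apply le_LL
    intro c hc
    rcases lt_or_ge c 0 with hc0 | hc0
    · filter_upwards [eventually_ge_atTop 1] with x hx
      refine hc0.le.trans ?_
      unfold RR
      have := Real.log_nonneg hx
      positivity
    · obtain ⟨q, hq1, hq2⟩ := exists_rat_btwn hc
      filter_upwards [low_real _ C c q hC hc0 hq1 (g1 q (by linarith) hq2)] with x hx
      exact hx.le

/-- longer windows, all functions at once -/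
theorem all_long {E : ℕ → Set Ω} (H : ∀ C : ℝ, 0 < C → Win μ E (WI C) C) :
    ∀ᵐ ω ∂μ, ∀ h : ℝ → ℝ, (∀ M : ℝ, ∀ᶠ x : ℝ in atTop, M * (Real.log x) ^ 2 ≤ h x) →
      (∀ δ : ℝ, 0 < δ → ∀ᶠ x : ℝ in atTop, h x ≤ δ * x) →
      LL {m | ω ∈ E m} h = 1 ∧ UU {m | ω ∈ E m} h = 1 := by
  have h1 : ∀ k : ℕ, ∃ K : ℝ, 0 < K ∧ ∀ᵐ ω ∂μ, ∀ᶠ n : ℕ in atTop,
      (1 - 1 / (k + 2 : ℝ)) * (K * Real.log n) ≤ (sc {m | ω ∈ E m} n (n + wn K n) : ℝ) ∧
      (sc {m | ω ∈ E m} n (n + wn K n) : ℝ) ≤ (1 + 1 / (k + 2 : ℝ)) * (K * Real.log n) := by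
    intro k
    obtain ⟨ε, hε⟩ : ∃ ε : ℝ, ε = 1 / (k + 2 : ℝ) := ⟨_, rfl⟩
    have hε0 : 0 < ε := by rw [hε]; positivity
    have hε1 : ε < 1 := by
      rw [hε, div_lt_one (by positivity)]
      have : (0 : ℝ) ≤ k := Nat.cast_nonneg k
      linarith
    rw [← hε]
    have r1 : 0 < rate (1 - ε) := by
      have := rate_anti (1 - ε) 1 (by linarith) (by linarith) le_rfl
      rwa [rate_one] at this
    have r2 : 0 < rate (1 + ε) := by
      have := rate_mono 1 (1 + ε) le_rfl (by linarith)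
      rwa [rate_one] at this
    refine ⟨1 / rate (1 - ε) + 1 / rate (1 + ε) + 1, by positivity, ?_⟩
    obtain ⟨K, hK⟩ : ∃ K, K = 1 / rate (1 - ε) + 1 / rate (1 + ε) + 1 := ⟨_, rfl⟩
    rw [← hK]
    have hK0 : 0 < K := by rw [hK]; positivity
    have q1 : 1 < K * rate (1 - ε) := by
      have : 1 / rate (1 - ε) < K := by
        have : 0 < 1 / rate (1 + ε) := by positivity
        linarith
      rwa [div_lt_iff₀ r1] at this
    have q2 : 1 < K * rate (1 + ε) := by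
      have : 1 / rate (1 + ε) < K := by
        have : 0 < 1 / rate (1 - ε) := by positivity
        linarith
      rwa [div_lt_iff₀ r2] at this
    filter_upwards [lt_nev (H K hK0) (1 - ε) (by linarith) (by linarith) q1,
      gt_nev (H K hK0) (1 + ε) (by linarith) q2] with ω g1 g2
    filter_upwards [g1, g2] with n k1 k2
    exact ⟨k1.le, k2.le⟩
  choose K hK hK2 using h1
  filter_upwards [ae_all_iff.2 hK2] with ω hω
  intro h g1 g2
  apply of_lim
  apply lim_one _ _ h g1 g2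
  intro ε hε hε1
  obtain ⟨k, hk⟩ := exists_nat_one_div_lt hε
  refine ⟨K k, hK k, ?_⟩
  filter_upwards [hω k] with n hn
  have h3 : 1 / (k + 2 : ℝ) ≤ ε := by
    refine le_trans ?_ hk.le
    apply one_div_le_one_div_of_le (by positivity)
    linarith
  have h4 : 0 ≤ K k * Real.log n := mul_nonneg (hK k).le (Real.log_natCast_nonneg n)
  constructor
  · refine le_trans ?_ hn.1
    apply mul_le_mul_of_nonneg_right _ h4
    linarith
  · refine hn.2.trans ?_
    apply mul_le_mul_of_nonneg_right _ h4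
    linarith

/-- shorter windows -/
theorem all_short {E : ℕ → Set Ω} (H : ∀ C : ℝ, 0 < C → Win μ E (WI C) C) :
    ∀ᵐ ω ∂μ, ∀ h : ℝ → ℝ, ∀ c : ℝ, c < 1 → (∀ᶠ x : ℝ in atTop, 0 < h x ∧ h x ≤ c * (Real.log x) ^ 2) →
      LL {m | ω ∈ E m} h = 0 := by
  have h1 : ∀ᵐ ω ∂μ, ∀ q : ℚ, 0 < (q : ℝ) → (q : ℝ) < 1 → ∃ᶠ n : ℕ in atTop,
      (sc {m | ω ∈ E m} n (n + wn q n) : ℝ) ≤ 0 * ((q : ℝ) * Real.log n) := by
    rw [ae_all_iff]
    intro q
    by_cases hq : 0 < (q : ℝ)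
    · by_cases hq2 : (q : ℝ) < 1
      · filter_upwards [lt_io (H q hq) 0 le_rfl one_pos (by rw [rate_zero, mul_one]; exact hq2)] with ω hω _ _
        exact hω
      · exact Eventually.of_forall fun ω _ h => absurd h hq2
    · exact Eventually.of_forall fun ω h => absurd h hq
  filter_upwards [h1] with ω hω
  intro h c hc hh
  obtain ⟨q, hq1, hq2⟩ := exists_rat_btwn (max_lt hc one_pos : max c 0 < 1)
  have hq0 : 0 < (q : ℝ) := lt_of_le_of_lt (le_max_right _ _) hq1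
  have hqc : c ≤ q := (le_max_left _ _).trans hq1.le
  apply le_antisymm
  · have h0 : ((0 : ℝ) : EReal) = 0 := rfl
    rw [← h0]
    apply LL_le
    intro c' hc'
    have h3 : ∃ᶠ x : ℝ in atTop, RR {m | ω ∈ E m} h x ≤ 0 := by
      apply tendsto_natCast_atTop_atTop.frequently
      refine ((hω q hq0 hq2).and_eventually
        ((tendsto_natCast_atTop_atTop.eventually hh).and (tlog.eventually_gt_atTop 0))).mono ?_
      rintro n ⟨k1, k2, k3⟩
      have h4 : cr {m | ω ∈ E m} n (h n) ≤ sc {m | ω ∈ E m} n (n + wn q n) := by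
        rw [cr_eq _ _ _ (Nat.cast_nonneg n) k2.1.le, Nat.floor_natCast]
        apply sc_mono
        have h5 : ⌊(n : ℝ) + h n⌋₊ = n + ⌊h n⌋₊ := by
          rw [add_comm (n : ℝ), Nat.floor_add_natCast k2.1.le, add_comm]
        rw [h5]
        have h6 : ⌊h n⌋₊ ≤ wn q n := by
          apply Nat.floor_le_floor
          refine k2.2.trans ?_
          gcongr
        omega
      have h7 : sc {m | ω ∈ E m} n (n + wn q n) = 0 := by
        rw [zero_mul] at k1
        exact_mod_cast le_antisymm k1 (Nat.cast_nonneg _)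
      unfold RR
      have h8 : cr {m | ω ∈ E m} n (h n) = 0 := by omega
      rw [h8]
      simp
    exact h3.mono fun x hx => hx.trans hc'.le
  · have h0 : ((0 : ℝ) : EReal) = 0 := rfl
    rw [← h0]
    apply le_LL
    intro c' hc'
    filter_upwards [eventually_ge_atTop 1, hh] with x hx hx2
    refine hc'.le.trans ?_
    unfold RR
    have := Real.log_nonneg hx
    have := hx2.1.le
    positivity

end Pool.Agent.U746.LD
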