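import Mathlib
import Pool.Agent.U746.LD.Gen

set_option autoImplicit false

/-! # Large deviations in all residue classes at once -/

open Finset Filter Topology MeasureTheory ProbabilityTheory

namespace Pool.Agent.U746.LD

open Pool.Agent.U839.Thin (tlog)
open Pool.Agent.U839.Sv (wn log_sq_small)

/-- the first `⌊c (log q)²⌋` elements `> a` of the class of `a` mod `q` -/
noncomputable def AP (c : ℝ) (q a : ℕ) : Finset ℕ := (Ioc 0 (wn c q)).image (fun k => a + k * q)

theorem AP_size (c : ℝ) (hc : 0 < c) (ε : ℝ) (hε : 0 < ε) : ∀ᶠ q : ℕ in atTop, ∀ a < q, ∀ m ∈ AP c q a,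
    q ≤ m ∧ Real.log q ≤ Real.log m ∧ Real.log m ≤ (1 + ε) * Real.log q := by
  filter_upwards [log_sq_small (2 * c) (ε / 2) (by positivity) (by positivity), eventually_ge_atTop 2,
    tlog.eventually_ge_atTop (2 / ε)] with q h1 h2 h3
  intro a ha m hm
  unfold AP at hm
  rw [mem_image] at hm
  obtain ⟨k, hk, rfl⟩ := hm
  rw [mem_Ioc] at hk
  have hq0 : (0 : ℝ) < q := by exact_mod_cast (by omega : 0 < q)
  have h4 : q ≤ a + k * q := by nlinarith
  have h4' : (q : ℝ) ≤ ((a + k * q : ℕ) : ℝ) := by exact_mod_cast h4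
  refine ⟨h4, Real.log_le_log hq0 h4', ?_⟩
  have h5 : (k : ℝ) ≤ c * (Real.log q) ^ 2 := by
    have h6 : (k : ℝ) ≤ wn c q := by exact_mod_cast hk.2
    exact h6.trans (Nat.floor_le (by positivity))
  have h7 : ((a + k * q : ℕ) : ℝ) ≤ 2 * ((q : ℝ) ^ (ε / 2) * q) := by
    push_cast
    have h8 : (a : ℝ) ≤ q := by exact_mod_cast ha.le
    have h9 : (k : ℝ) * q ≤ (q : ℝ) ^ (ε / 2) * q := by
      apply mul_le_mul_of_nonneg_right _ hq0.le
      nlinarith [sq_nonneg (Real.log q)]
    have h10 : (1 : ℝ) ≤ (q : ℝ) ^ (ε / 2) := by nlinarith [sq_nonneg (Real.log q)]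
    nlinarith
  have h11 := Real.log_le_log (by linarith : (0 : ℝ) < ((a + k * q : ℕ) : ℝ)) h7
  rw [Real.log_mul (by norm_num) (by positivity), Real.log_mul (by positivity) hq0.ne',
    Real.log_rpow hq0] at h11
  have h12 := Real.log_two_lt_d9
  rw [div_le_iff₀ hε] at h3
  nlinarith

theorem AP_card (c : ℝ) (q a : ℕ) (hq : 0 < q) : (AP c q a).card = wn c q := by
  unfold AP
  rw [card_image_of_injOn]
  · simp
  · intro k _ k' _ h
    simp only at h
    have h2 : k * q = k' * q := by omega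
    exact Nat.eq_of_mul_eq_mul_right hq h2

theorem AP_mean (p : ℕ → ℝ) (hp : ∀ᶠ m : ℕ in atTop, p m = 1 / Real.log m) (c : ℝ) (hc : 0 < c)
    (f : ℕ → ℕ) (hf : ∀ᶠ q in atTop, f q < q) : Mean p (fun q => AP c q (f q)) c := by
  intro ε hε
  obtain ⟨η, hη, hη1, hη2⟩ : ∃ η : ℝ, 0 < η ∧ η ≤ 1 ∧ 2 * c * η ≤ ε := by
    refine ⟨min 1 (ε / (2 * c)), lt_min one_pos (by positivity), min_le_left _ _, ?_⟩
    calc 2 * c * min 1 (ε / (2 * c)) ≤ 2 * c * (ε / (2 * c)) := by
          gcongr
          exact min_le_right _ _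
      _ = ε := by field_simp
  obtain ⟨n₁, hn₁⟩ := eventually_atTop.1 hp
  filter_upwards [AP_size c hc η hη, hf, eventually_ge_atTop (n₁ + 2), tlog.eventually_ge_atTop 1,
    tlog.eventually_ge_atTop (1 / ε), tlog.eventually_ge_atTop (2 / (c * η))] with q g1 g2 g3 g4 g5 g6
  have hL0 : 0 < Real.log q := by linarith
  have hcard : ((AP c q (f q)).card : ℝ) = (wn c q : ℝ) := by rw [AP_card c q (f q) (by omega)]
  have hw1 : (wn c q : ℝ) ≤ c * (Real.log q) ^ 2 := Nat.floor_le (by positivity)
  have hw2 : c * (Real.log q) ^ 2 < wn c q + 1 := Nat.lt_floor_add_one _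
  have hpq : ∀ m ∈ AP c q (f q), p m = 1 / Real.log m ∧ 1 / ((1 + η) * Real.log q) ≤ p m ∧
      p m ≤ 1 / Real.log q := by
    intro m hm
    obtain ⟨k1, k2, k3⟩ := g1 (f q) g2 m hm
    have e1 := hn₁ m (by omega)
    rw [e1]
    refine ⟨rfl, one_div_le_one_div_of_le (by linarith) k3, one_div_le_one_div_of_le hL0 k2⟩
  refine ⟨?_, ?_, ?_⟩
  · calc (c - ε) * Real.log q ≤ (wn c q : ℝ) * (1 / ((1 + η) * Real.log q)) := by
          rw [mul_one_div, le_div_iff₀ (by positivity)]
          rw [div_le_iff₀ (by positivity)] at g6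
          have h1 : (c - ε) * (1 + η) ≤ c - c * η := by nlinarith
          have h2 : (c - ε) * (1 + η) * (Real.log q) ^ 2 ≤ (c - c * η) * (Real.log q) ^ 2 := by gcongr
          have h3 : 1 ≤ c * η * (Real.log q) ^ 2 := by nlinarith [mul_pos hc hη]
          nlinarith
      _ = ∑ m ∈ AP c q (f q), 1 / ((1 + η) * Real.log q) := by rw [sum_const, nsmul_eq_mul, hcard]
      _ ≤ _ := sum_le_sum fun m hm => (hpq m hm).2.1
  · calc ∑ m ∈ AP c q (f q), p m ≤ ∑ m ∈ AP c q (f q), 1 / Real.log q :=
          sum_le_sum fun m hm => (hpq m hm).2.2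
      _ = (wn c q : ℝ) * (1 / Real.log q) := by rw [sum_const, nsmul_eq_mul, hcard]
      _ ≤ (c + ε) * Real.log q := by
          rw [mul_one_div, div_le_iff₀ hL0]
          nlinarith [mul_pos hε (mul_pos hL0 hL0)]
  · intro m hm
    refine (hpq m hm).2.2.trans ?_
    rw [div_le_iff₀ hε] at g5
    rw [div_le_iff₀ hL0]
    linarith

/-- uniformity in the residue class -/
theorem unif {P : ℕ → ℕ → Prop} (h : ∀ f : ℕ → ℕ, (∀ᶠ q in atTop, f q < q) → ∀ᶠ q in atTop, P q (f q)) :
    ∀ᶠ q in atTop, ∀ a < q, P q a := by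
  classical
  have h1 := h (fun q => if hq : ∃ a, a < q ∧ ¬ P q a then hq.choose else 0) (by
    filter_upwards [eventually_gt_atTop 0] with q hq
    split_ifs with h2
    · exact h2.choose_spec.1
    · exact hq)
  filter_upwards [h1] with q hq a ha
  by_contra hcon
  have h2 : ∃ a, a < q ∧ ¬ P q a := ⟨a, ha, hcon⟩
  rw [dif_pos h2] at hq
  exact h2.choose_spec.2 hq

variable {Ω : Type*} [MeasurableSpace Ω] {μ : Measure Ω} [IsProbabilityMeasure μ]

/-- at most / at least `y c log q` elements -/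
def BL (E : ℕ → Set Ω) (c y : ℝ) (q a : ℕ) : Set Ω :=
  {ω | ((pat E (AP c q a) ω).card : ℝ) ≤ y * (c * Real.log q)}

def BG (E : ℕ → Set Ω) (c y : ℝ) (q a : ℕ) : Set Ω :=
  {ω | y * (c * Real.log q) ≤ ((pat E (AP c q a) ω).card : ℝ)}

/-- some class is exceptional, for all large `q` -/
theorem some_class {E : ℕ → Set Ω} (hm : ∀ n, MeasurableSet (E n)) (hE : iIndepSet E μ) (c : ℝ)
    (P : ℕ → Finset ℕ → Prop) (s : ℝ) (hs : s < 1)
    (h : ∀ᶠ q : ℕ in atTop, ∀ a < q, Real.exp (-(s * Real.log q)) ≤ μ.real {ω | P q (pat E (AP c q a) ω)}) :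
    ∀ᵐ ω ∂μ, ∀ᶠ q : ℕ in atTop, ∃ a < q, P q (pat E (AP c q a) ω) := by
  classical
  have hδ0 : 0 < 1 - s := by linarith
  have hsum : Summable (fun q : ℕ => μ.real {ω | ∀ a < q, ¬ P q (pat E (AP c q a) ω)}) := by
    apply conv_of _ 2 (by norm_num)
    have h1 : ∀ᶠ y : ℝ in atTop, Real.log y ≤ 1 / 2 * y ^ (1 - s) := by
      have h2 := (isLittleO_log_rpow_atTop hδ0).bound (show (0 : ℝ) < 1 / 2 by norm_num)
      filter_upwards [h2, eventually_ge_atTop 1] with y g1 g2
      rwa [Real.norm_of_nonneg (Real.log_nonneg g2), Real.norm_of_nonneg (by positivity)] at g1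
    filter_upwards [h, tendsto_natCast_atTop_atTop.eventually h1, eventually_ge_atTop 1] with q g1 g2 g3
    have hq0 : (0 : ℝ) < q := by exact_mod_cast g3
    -- independence over the classes
    obtain ⟨I, hI⟩ : ∃ I : ℕ → Finset ℕ, I = fun a => if a < q then AP c q a else ∅ := ⟨_, rfl⟩
    have hd : Pairwise (Function.onFun Disjoint I) := by
      intro a b hab
      show Disjoint (I a) (I b)
      rw [hI]
      simp only
      split_ifs with h1 h2
      · rw [Finset.disjoint_left]
        intro m h3 h4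
        unfold AP at h3 h4
        rw [mem_image] at h3 h4
        obtain ⟨k, -, hk⟩ := h3
        obtain ⟨k', -, hk'⟩ := h4
        apply hab
        have e1 : m % q = a := by rw [← hk, Nat.add_mul_mod_self_right, Nat.mod_eq_of_lt h1]
        have e2 : m % q = b := by rw [← hk', Nat.add_mul_mod_self_right, Nat.mod_eq_of_lt h2]
        rw [← e1, ← e2]
      · exact Finset.disjoint_empty_right _
      · exact Finset.disjoint_empty_left _
      · exact Finset.disjoint_empty_left _
    have hind := pat_indep hm hE I hd (fun _ A => ¬ P q A)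
    have h3 : {ω | ∀ a < q, ¬ P q (pat E (AP c q a) ω)} =
        ⋂ a ∈ range q, {ω | ¬ P q (pat E (I a) ω)} := by
      ext ω
      simp only [Set.mem_setOf_eq, Set.mem_iInter, mem_range]
      constructor
      · intro h4 a ha
        rw [hI]
        simp only [if_pos ha]
        exact h4 a ha
      · intro h4 a ha
        have h5 := h4 a ha
        rw [hI] at h5
        simpa only [if_pos ha] using h5
    rw [h3, measureReal_def, hind.meas_biInter, ENNReal.toReal_prod]
    calc ∏ a ∈ range q, (μ {ω | ¬ P q (pat E (I a) ω)}).toReal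
        ≤ ∏ a ∈ range q, Real.exp (-((q : ℝ) ^ (-s))) := by
          apply Finset.prod_le_prod
          · intro a _
            exact ENNReal.toReal_nonneg
          · intro a ha
            rw [mem_range] at ha
            have h4 : {ω | ¬ P q (pat E (I a) ω)} = {ω | P q (pat E (AP c q a) ω)}ᶜ := by
              rw [hI]
              simp only [if_pos ha]
              rfl
            rw [h4, ← measureReal_def, probReal_compl_eq_one_sub (pat_meas' hm _ _)]
            have h5 := g1 a ha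
            have h6 : Real.exp (-(s * Real.log q)) = (q : ℝ) ^ (-s) := by
              rw [Real.rpow_def_of_pos hq0]
              congr 1
              ring
            rw [h6] at h5
            have h7 := Real.add_one_le_exp (-((q : ℝ) ^ (-s)))
            linarith
      _ = Real.exp (-((q : ℝ) ^ (1 - s))) := by
          rw [prod_const, card_range, ← Real.exp_nat_mul]
          congr 1
          have h8 : (q : ℝ) ^ (1 - s) = q * (q : ℝ) ^ (-s) := by
            rw [sub_eq_add_neg, Real.rpow_add hq0, Real.rpow_one]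
          rw [h8]
          ring
      _ ≤ _ := by
          apply Real.exp_le_exp.2
          linarith
  filter_upwards [bc1 _ hsum] with ω hω
  filter_upwards [hω] with q hq
  simp only [Set.mem_setOf_eq, not_forall, not_not] at hq
  obtain ⟨a, ha, h1⟩ := hq
  exact ⟨a, ha, h1⟩

/-- no class is exceptional, along a sequence of moduli -/
theorem no_class {E : ℕ → Set Ω} (c : ℝ) (P : ℕ → Finset ℕ → Prop) (s : ℝ) (Q : ℕ → ℕ)
    (hQ : Tendsto Q atTop atTop) (hsum : Summable (fun j => ((Q j : ℝ) ^ (s - 1))⁻¹))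
    (h : ∀ᶠ q : ℕ in atTop, ∀ a < q, μ.real {ω | P q (pat E (AP c q a) ω)} ≤ Real.exp (-(s * Real.log q))) :
    ∀ᵐ ω ∂μ, ∀ᶠ j : ℕ in atTop, ∀ a < Q j, ¬ P (Q j) (pat E (AP c (Q j) a) ω) := by
  have hsum2 : Summable (fun j : ℕ => μ.real (⋃ a ∈ range (Q j), {ω | P (Q j) (pat E (AP c (Q j) a) ω)})) := by
    refine Summable.of_norm_bounded_eventually_nat hsum ?_
    filter_upwards [hQ.eventually h, hQ.eventually (eventually_ge_atTop 1)] with j g1 g2
    have hq0 : (0 : ℝ) < Q j := by exact_mod_cast g2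
    rw [Real.norm_of_nonneg measureReal_nonneg]
    calc μ.real (⋃ a ∈ range (Q j), {ω | P (Q j) (pat E (AP c (Q j) a) ω)})
        ≤ ∑ a ∈ range (Q j), μ.real {ω | P (Q j) (pat E (AP c (Q j) a) ω)} :=
          measureReal_biUnion_finset_le _ _
      _ ≤ ∑ a ∈ range (Q j), Real.exp (-(s * Real.log (Q j))) :=
          sum_le_sum fun a ha => g1 a (mem_range.1 ha)
      _ = (Q j : ℝ) * Real.exp (-(s * Real.log (Q j))) := by rw [sum_const, card_range, nsmul_eq_mul]
      _ = _ := by
          rw [← Real.rpow_neg hq0.le, Real.rpow_def_of_pos hq0]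
          have h1 : (Q j : ℝ) * Real.exp (-(s * Real.log (Q j))) =
              Real.exp (Real.log (Q j)) * Real.exp (-(s * Real.log (Q j))) := by rw [Real.exp_log hq0]
          rw [h1, ← Real.exp_add]
          congr 1
          ring
  filter_upwards [bc1 _ hsum2] with ω hω
  filter_upwards [hω] with j hj a ha hcon
  apply hj
  rw [Set.mem_iUnion₂]
  exact ⟨a, mem_range.2 ha, hcon⟩

end Pool.Agent.U746.LD
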